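import Mathlib

set_option autoImplicit false

open scoped InnerProductSpace TensorProduct

namespace Pool.Agent.Helper172.HD

section Haagerup

variable (𝔄 : Type) [NormedRing 𝔄] [NormedAlgebra ℂ 𝔄]

/-- The algebraic tensor product `𝔄 ⊗ 𝔄` over `ℂ`; it carries the Haagerup norm below. -/
def HTensor : Type := 𝔄 ⊗[ℂ] 𝔄

noncomputable instance : AddCommGroup (HTensor 𝔄) := inferInstanceAs (AddCommGroup (𝔄 ⊗[ℂ] 𝔄))

noncomputable instance : Module ℂ (HTensor 𝔄) := inferInstanceAs (Module ℂ (𝔄 ⊗[ℂ] 𝔄))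

variable {𝔄}

/-- The elementary tensor `x ⊗ y`. -/
noncomputable def tmul (x y : 𝔄) : HTensor 𝔄 := x ⊗ₜ[ℂ] y

theorem tmul_add (x y z : 𝔄) : tmul x (y + z) = tmul x y + tmul x z :=
  TensorProduct.tmul_add x y z

theorem add_tmul (x y z : 𝔄) : tmul (x + y) z = tmul x z + tmul y z :=
  TensorProduct.add_tmul x y z

theorem smul_tmul (c : ℂ) (x y : 𝔄) : tmul (c • x) y = c • tmul x y :=
  (TensorProduct.smul_tmul' c x y).symm

theorem tmul_smul (c : ℂ) (x y : 𝔄) : tmul x (c • y) = c • tmul x y :=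
  TensorProduct.tmul_smul c x y

variable [StarRing 𝔄]

/-- The numbers `‖∑ xⱼ xⱼ*‖^{1/2} ‖∑ yⱼ* yⱼ‖^{1/2}` over all representations
`u = ∑ xⱼ ⊗ yⱼ`. -/
def haagerupSet (u : HTensor 𝔄) : Set ℝ :=
  {t | ∃ (n : ℕ) (x y : Fin n → 𝔄), u = ∑ j, tmul (x j) (y j) ∧
    t = Real.sqrt ‖∑ j, x j * star (x j)‖ * Real.sqrt ‖∑ j, star (y j) * y j‖}

/-- The Haagerup norm of `u`. -/
noncomputable def haagerup (u : HTensor 𝔄) : ℝ := sInf (haagerupSet u)

theorem haagerupSet_nonneg {u : HTensor 𝔄} {t : ℝ} (ht : t ∈ haagerupSet u) : 0 ≤ t := by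
  obtain ⟨n, x, y, _, rfl⟩ := ht
  positivity

theorem haagerupSet_bddBelow (u : HTensor 𝔄) : BddBelow (haagerupSet u) :=
  ⟨0, fun _ ht => haagerupSet_nonneg ht⟩

/-- Representations indexed by an arbitrary finite type. -/
theorem mem_haagerupSet {ι : Type*} [Fintype ι] (x y : ι → 𝔄) :
    Real.sqrt ‖∑ j, x j * star (x j)‖ * Real.sqrt ‖∑ j, star (y j) * y j‖ ∈
      haagerupSet (∑ j, tmul (x j) (y j)) := by
  refine ⟨Fintype.card ι, fun j => x ((Fintype.equivFin ι).symm j),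
    fun j => y ((Fintype.equivFin ι).symm j), ?_, ?_⟩
  · exact (Equiv.sum_comp (Fintype.equivFin ι).symm (fun j => tmul (x j) (y j))).symm
  · rw [Equiv.sum_comp (Fintype.equivFin ι).symm (fun j => x j * star (x j)),
      Equiv.sum_comp (Fintype.equivFin ι).symm (fun j => star (y j) * y j)]

theorem haagerup_nonneg (u : HTensor 𝔄) : 0 ≤ haagerup u :=
  Real.sInf_nonneg fun _ ht => haagerupSet_nonneg ht

theorem haagerup_le {ι : Type*} [Fintype ι] (x y : ι → 𝔄) :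
    haagerup (∑ j, tmul (x j) (y j)) ≤
      Real.sqrt ‖∑ j, x j * star (x j)‖ * Real.sqrt ‖∑ j, star (y j) * y j‖ :=
  csInf_le (haagerupSet_bddBelow _) (mem_haagerupSet x y)

theorem exists_rep (u : HTensor 𝔄) : ∃ (n : ℕ) (x y : Fin n → 𝔄), u = ∑ j, tmul (x j) (y j) := by
  have key : ∀ u : 𝔄 ⊗[ℂ] 𝔄, ∃ (n : ℕ) (x y : Fin n → 𝔄), u = ∑ j, x j ⊗ₜ[ℂ] y j := by
    intro u
    induction u using TensorProduct.induction_on with
    | zero => exact ⟨0, fun _ => 0, fun _ => 0, by simp⟩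
    | tmul a b => exact ⟨1, fun _ => a, fun _ => b, by simp⟩
    | add u v hu hv =>
      obtain ⟨n, x, y, rfl⟩ := hu
      obtain ⟨m, x', y', rfl⟩ := hv
      refine ⟨n + m, Fin.append x x', Fin.append y y', ?_⟩
      simp [Fin.sum_univ_add]
  exact key u

theorem haagerupSet_nonempty (u : HTensor 𝔄) : (haagerupSet u).Nonempty := by
  obtain ⟨n, x, y, h⟩ := exists_rep u
  exact ⟨_, n, x, y, h, rfl⟩

variable [StarModule ℂ 𝔄]

theorem exists_balanced (u : HTensor 𝔄) {t : ℝ} (ht : haagerup u < t) :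
    ∃ (n : ℕ) (x y : Fin n → 𝔄), u = ∑ j, tmul (x j) (y j) ∧
      ‖∑ j, x j * star (x j)‖ ≤ t ∧ ‖∑ j, star (y j) * y j‖ ≤ t := by
  have ht0 : 0 < t := (haagerup_nonneg u).trans_lt ht
  obtain ⟨s, ⟨n, x, y, hu, rfl⟩, hs⟩ := exists_lt_of_csInf_lt (haagerupSet_nonempty u) ht
  set a := ‖∑ j, x j * star (x j)‖ with ha
  set b := ‖∑ j, star (y j) * y j‖ with hb
  have ha0 : 0 ≤ a := norm_nonneg _
  have hb0 : 0 ≤ b := norm_nonneg _
  have hab : a * b < t ^ 2 := by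
    rw [← Real.sqrt_mul ha0] at hs
    exact (Real.sqrt_lt' ht0).1 hs
  -- choose `r > 0` with `r * a ≤ t` and `b ≤ r * t`
  obtain ⟨r, hr0, hra, hrb⟩ : ∃ r : ℝ, 0 < r ∧ r * a ≤ t ∧ b ≤ r * t := by
    rcases eq_or_lt_of_le ha0 with h0 | h0
    · refine ⟨b / t + 1, by positivity, by rw [← h0]; simp [ht0.le], ?_⟩
      rw [add_mul, div_mul_cancel₀ _ ht0.ne']
      linarith
    · refine ⟨t / a, by positivity, by rw [div_mul_cancel₀ _ h0.ne'], ?_⟩
      rw [div_mul_eq_mul_div, le_div_iff₀ h0]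
      nlinarith
  have hsr : (0 : ℝ) < Real.sqrt r := Real.sqrt_pos.2 hr0
  have hss : Real.sqrt r * Real.sqrt r = r := Real.mul_self_sqrt hr0.le
  refine ⟨n, fun j => (Real.sqrt r : ℂ) • x j, fun j => ((Real.sqrt r)⁻¹ : ℂ) • y j, ?_, ?_, ?_⟩
  · rw [hu]
    refine Finset.sum_congr rfl fun j _ => ?_
    rw [smul_tmul, tmul_smul, smul_smul, mul_inv_cancel₀, one_smul]
    exact_mod_cast hsr.ne'
  · have : (∑ j, ((Real.sqrt r : ℂ) • x j) * star ((Real.sqrt r : ℂ) • x j)) =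
        (r : ℂ) • ∑ j, x j * star (x j) := by
      rw [Finset.smul_sum]
      refine Finset.sum_congr rfl fun j _ => ?_
      rw [star_smul, smul_mul_smul_comm]
      congr 1
      simp only [RCLike.star_def, Complex.conj_ofReal]
      exact_mod_cast hss
    rw [this, norm_smul]
    simpa [abs_of_pos hr0] using hra
  · have : (∑ j, star (((Real.sqrt r)⁻¹ : ℂ) • y j) * (((Real.sqrt r)⁻¹ : ℂ) • y j)) =
        ((r⁻¹ : ℝ) : ℂ) • ∑ j, star (y j) * y j := by
      rw [Finset.smul_sum]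
      refine Finset.sum_congr rfl fun j _ => ?_
      rw [star_smul, smul_mul_smul_comm]
      congr 1
      have h2 : (Real.sqrt r)⁻¹ * (Real.sqrt r)⁻¹ = r⁻¹ := by
        rw [← mul_inv, hss]
      simp only [RCLike.star_def, map_inv₀, Complex.conj_ofReal]
      exact_mod_cast h2
    rw [this, norm_smul]
    have h3 : ‖((r⁻¹ : ℝ) : ℂ)‖ = r⁻¹ := by
      rw [Complex.norm_real, Real.norm_eq_abs, abs_of_pos (inv_pos.2 hr0)]
    rw [h3, inv_mul_le_iff₀ hr0]
    exact hrb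

theorem haagerup_add_le (u v : HTensor 𝔄) : haagerup (u + v) ≤ haagerup u + haagerup v := by
  refine le_of_forall_pos_le_add fun ε hε => ?_
  obtain ⟨n, x, y, hu, hx, hy⟩ := exists_balanced u (t := haagerup u + ε / 2) (by linarith)
  obtain ⟨m, x', y', hv, hx', hy'⟩ := exists_balanced v (t := haagerup v + ε / 2) (by linarith)
  have h := haagerup_le (Sum.elim x x') (Sum.elim y y')
  have e1 : (∑ j, tmul (Sum.elim x x' j) (Sum.elim y y' j)) = u + v := by
    rw [Fintype.sum_sum_type, hu, hv]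
    rfl
  have e2 : ‖∑ j, Sum.elim x x' j * star (Sum.elim x x' j)‖ ≤ haagerup u + haagerup v + ε := by
    rw [Fintype.sum_sum_type]
    refine (norm_add_le _ _).trans ?_
    simp only [Sum.elim_inl, Sum.elim_inr]
    linarith
  have e3 : ‖∑ j, star (Sum.elim y y' j) * Sum.elim y y' j‖ ≤ haagerup u + haagerup v + ε := by
    rw [Fintype.sum_sum_type]
    refine (norm_add_le _ _).trans ?_
    simp only [Sum.elim_inl, Sum.elim_inr]
    linarith
  rw [e1] at h
  refine h.trans ?_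
  have h0 : 0 ≤ haagerup u + haagerup v + ε := by
    have := haagerup_nonneg u
    have := haagerup_nonneg v
    linarith
  calc Real.sqrt ‖∑ j, Sum.elim x x' j * star (Sum.elim x x' j)‖ *
        Real.sqrt ‖∑ j, star (Sum.elim y y' j) * Sum.elim y y' j‖
      ≤ Real.sqrt (haagerup u + haagerup v + ε) * Real.sqrt (haagerup u + haagerup v + ε) :=
        mul_le_mul (Real.sqrt_le_sqrt e2) (Real.sqrt_le_sqrt e3) (Real.sqrt_nonneg _)
          (Real.sqrt_nonneg _)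
    _ = haagerup u + haagerup v + ε := Real.mul_self_sqrt h0

theorem haagerup_smul_le (c : ℂ) (u : HTensor 𝔄) : haagerup (c • u) ≤ ‖c‖ * haagerup u := by
  have key : ∀ t ∈ haagerupSet u, haagerup (c • u) ≤ ‖c‖ * t := by
    rintro t ⟨n, x, y, hu, rfl⟩
    have h := haagerup_le (fun j => c • x j) y
    have e1 : (∑ j, tmul (c • x j) (y j)) = c • u := by
      rw [hu, Finset.smul_sum]
      exact Finset.sum_congr rfl fun j _ => smul_tmul _ _ _
    have e2 : (∑ j, (c • x j) * star (c • x j)) = (c * star c) • ∑ j, x j * star (x j) := by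
      rw [Finset.smul_sum]
      exact Finset.sum_congr rfl fun j _ => by rw [star_smul, smul_mul_smul_comm]
    rw [e1, e2, norm_smul, norm_mul, norm_star, Real.sqrt_mul (by positivity),
      Real.sqrt_mul_self (norm_nonneg c)] at h
    linarith
  rcases eq_or_lt_of_le (norm_nonneg c) with h0 | h0
  · have hc : c = 0 := norm_eq_zero.1 h0.symm
    obtain ⟨t, ht⟩ := haagerupSet_nonempty u
    have := key t ht
    rw [hc] at this ⊢
    simpa using this
  · rw [← div_le_iff₀' h0]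
    refine le_csInf (haagerupSet_nonempty u) fun t ht => ?_
    rw [div_le_iff₀' h0]
    exact key t ht

theorem haagerup_smul (c : ℂ) (u : HTensor 𝔄) : haagerup (c • u) = ‖c‖ * haagerup u := by
  refine le_antisymm (haagerup_smul_le c u) ?_
  rcases eq_or_ne c 0 with rfl | hc
  · simpa using haagerup_nonneg _
  · have h := haagerup_smul_le c⁻¹ (c • u)
    rw [smul_smul, inv_mul_cancel₀ hc, one_smul, norm_inv] at h
    have h0 : 0 < ‖c‖ := norm_pos_iff.2 hc
    rwa [← div_eq_inv_mul, le_div_iff₀' h0] at h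

noncomputable instance : Norm (HTensor 𝔄) := ⟨haagerup⟩

theorem norm_def (u : HTensor 𝔄) : ‖u‖ = haagerup u := rfl

/-- `𝔄 ⊗ 𝔄` with the Haagerup norm. -/
noncomputable instance : SeminormedAddCommGroup (HTensor 𝔄) :=
  SeminormedAddCommGroup.ofCore (𝕜 := ℂ)
    { norm_nonneg := haagerup_nonneg
      norm_smul := haagerup_smul
      norm_triangle := haagerup_add_le }

noncomputable instance : NormedSpace ℂ (HTensor 𝔄) where
  norm_smul_le := haagerup_smul_le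

theorem norm_sum_tmul_le {ι : Type*} [Fintype ι] (x y : ι → 𝔄) :
    ‖∑ j, tmul (x j) (y j)‖ ≤
      Real.sqrt ‖∑ j, x j * star (x j)‖ * Real.sqrt ‖∑ j, star (y j) * y j‖ :=
  haagerup_le x y

variable (𝔄) in
/-- The Banach space dual of `𝔄 ⊗ 𝔄` with the Haagerup norm: the bilinear forms on `𝔄 × 𝔄`
which are bounded for the Haagerup norm. -/
def HDual : Type := HTensor 𝔄 →L[ℂ] ℂ

namespace HDual

noncomputable instance : SeminormedAddCommGroup (HDual 𝔄) :=
  inferInstanceAs (SeminormedAddCommGroup (HTensor 𝔄 →L[ℂ] ℂ))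

noncomputable instance : FunLike (HDual 𝔄) (HTensor 𝔄) ℂ :=
  inferInstanceAs (FunLike (HTensor 𝔄 →L[ℂ] ℂ) (HTensor 𝔄) ℂ)

noncomputable instance : LinearMapClass (HDual 𝔄) ℂ (HTensor 𝔄) ℂ :=
  inferInstanceAs (LinearMapClass (HTensor 𝔄 →L[ℂ] ℂ) ℂ (HTensor 𝔄) ℂ)

theorem le_opNorm (f : HDual 𝔄) (u : HTensor 𝔄) : ‖f u‖ ≤ ‖f‖ * ‖u‖ :=
  ContinuousLinearMap.le_opNorm (f : HTensor 𝔄 →L[ℂ] ℂ) u

theorem opNorm_le_bound (f : HDual 𝔄) {M : ℝ} (hM : 0 ≤ M) (h : ∀ u, ‖f u‖ ≤ M * ‖u‖) :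
    ‖f‖ ≤ M :=
  ContinuousLinearMap.opNorm_le_bound (f : HTensor 𝔄 →L[ℂ] ℂ) hM h

noncomputable instance : NormedAddCommGroup (HDual 𝔄) :=
  NormedAddCommGroup.ofSeparation fun f hf => DFunLike.ext _ _ fun u =>
    norm_le_zero_iff.1 (by simpa [hf] using f.le_opNorm u)

noncomputable instance : NormedSpace ℂ (HDual 𝔄) :=
  inferInstanceAs (NormedSpace ℂ (HTensor 𝔄 →L[ℂ] ℂ))

instance : CompleteSpace (HDual 𝔄) :=
  inferInstanceAs (CompleteSpace (HTensor 𝔄 →L[ℂ] ℂ))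

@[simp] theorem add_apply (f g : HDual 𝔄) (u : HTensor 𝔄) : (f + g) u = f u + g u := rfl

@[simp] theorem smul_apply (c : ℂ) (f : HDual 𝔄) (u : HTensor 𝔄) : (c • f) u = c • f u := rfl

@[simp] theorem zero_apply (u : HTensor 𝔄) : (0 : HDual 𝔄) u = 0 := rfl

/-- A linear functional bounded for the Haagerup norm, as an element of the dual. -/
noncomputable def mk (f : HTensor 𝔄 →ₗ[ℂ] ℂ) (M : ℝ) (h : ∀ u, ‖f u‖ ≤ M * ‖u‖) : HDual 𝔄 :=
  f.mkContinuous M h

@[simp] theorem mk_apply (f : HTensor 𝔄 →ₗ[ℂ] ℂ) (M : ℝ) (h : ∀ u, ‖f u‖ ≤ M * ‖u‖)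
    (u : HTensor 𝔄) : mk f M h u = f u := rfl

end HDual

end Haagerup

end Pool.Agent.Helper172.HD
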