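import Mathlib
import Pool.Agent.Helper172.HD.Haagerup

set_option autoImplicit false

open scoped InnerProductSpace TensorProduct

namespace Pool.Agent.Helper172.HD

section Bimodule

/-- A (unital) Banach `𝔄`-bimodule structure on the normed space `X`: `l a x = a·x`,
`r b x = x·b`. -/
structure LinBimodule (𝔄 X : Type) [NormedRing 𝔄] [NormedAlgebra ℂ 𝔄]
    [NormedAddCommGroup X] [NormedSpace ℂ X] where
  l : 𝔄 →ₗ[ℂ] X →ₗ[ℂ] X
  r : 𝔄 →ₗ[ℂ] X →ₗ[ℂ] X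
  norm_l_le : ∀ a x, ‖l a x‖ ≤ ‖a‖ * ‖x‖
  norm_r_le : ∀ b x, ‖r b x‖ ≤ ‖b‖ * ‖x‖
  one_l : ∀ x, l 1 x = x
  one_r : ∀ x, r 1 x = x
  mul_l : ∀ a b x, l (a * b) x = l a (l b x)
  mul_r : ∀ a b x, r (a * b) x = r b (r a x)
  comm : ∀ a b x, l a (r b x) = r b (l a x)

variable {𝔄 : Type} [NormedRing 𝔄] [NormedAlgebra ℂ 𝔄]

/-- `σ` is a morphism of Banach `𝔄`-bimodules. -/
def LinIsMorphism {X Y : Type} [NormedAddCommGroup X] [NormedSpace ℂ X]
    [NormedAddCommGroup Y] [NormedSpace ℂ Y] (MX : LinBimodule 𝔄 X)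
    (MY : LinBimodule 𝔄 Y) (σ : X →L[ℂ] Y) : Prop :=
  (∀ a x, σ (MX.l a x) = MY.l a (σ x)) ∧ ∀ b x, σ (MX.r b x) = MY.r b (σ x)

/-- Relative injectivity: morphisms into `X` extend along every morphism `σ : Y → Z` of Banach
bimodules which has a bounded linear left inverse `ρ`. -/
def LinIsInjective {X : Type} [NormedAddCommGroup X] [NormedSpace ℂ X]
    (MX : LinBimodule 𝔄 X) : Prop :=
  ∀ (Y Z : Type) [NormedAddCommGroup Y] [NormedSpace ℂ Y] [CompleteSpace Y]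
    [NormedAddCommGroup Z] [NormedSpace ℂ Z] [CompleteSpace Z]
    (MY : LinBimodule 𝔄 Y) (MZ : LinBimodule 𝔄 Z)
    (σ : Y →L[ℂ] Z) (ρ : Z →L[ℂ] Y) (φ : Y →L[ℂ] X),
    LinIsMorphism MY MZ σ → (∀ y, ρ (σ y) = y) → LinIsMorphism MY MX φ →
    ∃ ψ : Z →L[ℂ] X, LinIsMorphism MZ MX ψ ∧ ∀ y, ψ (σ y) = φ y

/-- For a complete bimodule `X`, the space of bounded linear maps `𝔄 → X` with
`(c·θ)(a) = θ(ac)` and `(θ·d)(a) = θ(a)·d`. -/
noncomputable def mapsBimodule {X : Type} [NormedAddCommGroup X] [NormedSpace ℂ X]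
    (M : LinBimodule 𝔄 X) : LinBimodule 𝔄 (𝔄 →L[ℂ] X) where
  l := LinearMap.mk₂ ℂ (fun c θ => θ.comp ((ContinuousLinearMap.mul ℂ 𝔄).flip c))
    (fun c c' θ => by ext a; simp [mul_add])
    (fun z c θ => by ext a; simp)
    (fun c θ θ' => by ext a; simp)
    (fun z c θ => by ext a; simp)
  r := LinearMap.mk₂ ℂ
    (fun d θ => ((M.r d).mkContinuous ‖d‖ (M.norm_r_le d)).comp θ)
    (fun d d' θ => by ext a; simp)
    (fun z d θ => by ext a; simp)
    (fun d θ θ' => by ext a; simp)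
    (fun z d θ => by ext a; simp)
  norm_l_le := fun c θ => by
    refine ContinuousLinearMap.opNorm_le_bound _ (by positivity) fun a => ?_
    simp only [LinearMap.mk₂_apply, ContinuousLinearMap.comp_apply, ContinuousLinearMap.flip_apply,
      ContinuousLinearMap.mul_apply']
    calc ‖θ (a * c)‖ ≤ ‖θ‖ * ‖a * c‖ := θ.le_opNorm _
      _ ≤ ‖θ‖ * (‖a‖ * ‖c‖) := by gcongr; exact norm_mul_le _ _
      _ = ‖c‖ * ‖θ‖ * ‖a‖ := by ring
  norm_r_le := fun d θ => by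
    refine ContinuousLinearMap.opNorm_le_bound _ (by positivity) fun a => ?_
    simp only [LinearMap.mk₂_apply, ContinuousLinearMap.comp_apply, LinearMap.mkContinuous_apply]
    calc ‖M.r d (θ a)‖ ≤ ‖d‖ * ‖θ a‖ := M.norm_r_le _ _
      _ ≤ ‖d‖ * (‖θ‖ * ‖a‖) := by gcongr; exact θ.le_opNorm _
      _ = ‖d‖ * ‖θ‖ * ‖a‖ := by ring
  one_l := fun θ => by ext a; simp
  one_r := fun θ => by ext a; simp [M.one_r]
  mul_l := fun c d θ => by ext a; simp [mul_assoc]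
  mul_r := fun c d θ => by ext a; simp [M.mul_r]
  comm := fun c d θ => by ext a; simp

@[simp] theorem mapsBimodule_l {X : Type} [NormedAddCommGroup X] [NormedSpace ℂ X]
    (M : LinBimodule 𝔄 X) (c : 𝔄) (θ : 𝔄 →L[ℂ] X) (a : 𝔄) :
    (mapsBimodule M).l c θ a = θ (a * c) := rfl

@[simp] theorem mapsBimodule_r {X : Type} [NormedAddCommGroup X] [NormedSpace ℂ X]
    (M : LinBimodule 𝔄 X) (d : 𝔄) (θ : 𝔄 →L[ℂ] X) (a : 𝔄) :
    (mapsBimodule M).r d θ a = M.r d (θ a) := rfl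

/-- `X → B(𝔄, X)`, `f ↦ (a ↦ a·f)`. -/
noncomputable def lMap {X : Type} [NormedAddCommGroup X] [NormedSpace ℂ X]
    (M : LinBimodule 𝔄 X) : X →L[ℂ] (𝔄 →L[ℂ] X) :=
  LinearMap.mkContinuous₂ (M.l.flip) 1 (fun x a => by
    simpa [mul_comm] using M.norm_l_le a x)

/-- `X → B(𝔄, X)`, `f ↦ (a ↦ f·a)`. -/
noncomputable def rMap {X : Type} [NormedAddCommGroup X] [NormedSpace ℂ X]
    (M : LinBimodule 𝔄 X) : X →L[ℂ] (𝔄 →L[ℂ] X) :=
  LinearMap.mkContinuous₂ (M.r.flip) 1 (fun x a => by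
    simpa [mul_comm] using M.norm_r_le a x)

@[simp] theorem lMap_apply {X : Type} [NormedAddCommGroup X] [NormedSpace ℂ X]
    (M : LinBimodule 𝔄 X) (x : X) (a : 𝔄) : lMap M x a = M.l a x := rfl

@[simp] theorem rMap_apply {X : Type} [NormedAddCommGroup X] [NormedSpace ℂ X]
    (M : LinBimodule 𝔄 X) (x : X) (a : 𝔄) : rMap M x a = M.r a x := rfl

/-- If `X` is a complete injective bimodule, its centre is the range of a bounded projection. -/
theorem exists_center_projection {X : Type} [NormedAddCommGroup X] [NormedSpace ℂ X]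
    [CompleteSpace X] (M : LinBimodule 𝔄 X) (h : LinIsInjective M) :
    ∃ E : X →L[ℂ] X, (∀ x c, M.l c (E x) = M.r c (E x)) ∧
      ∀ x, (∀ c, M.l c x = M.r c x) → E x = x := by
  obtain ⟨ψ, hψ, hψ'⟩ := h X (𝔄 →L[ℂ] X) M (mapsBimodule M) (lMap M)
    (ContinuousLinearMap.apply ℂ X (1 : 𝔄)) (ContinuousLinearMap.id ℂ X)
    ⟨fun a x => by ext b; simp [M.mul_l], fun a x => by ext b; simp [M.comm]⟩
    (fun x => by simp [M.one_l])
    ⟨fun a x => by simp, fun a x => by simp⟩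
  refine ⟨ψ.comp (rMap M), fun x c => ?_, fun x hx => ?_⟩
  · simp only [ContinuousLinearMap.comp_apply]
    rw [← hψ.1, ← hψ.2]
    congr 1
    ext a
    simp [M.mul_r]
  · simp only [ContinuousLinearMap.comp_apply]
    have : rMap M x = lMap M x := by
      ext a
      simp [hx]
    rw [this, hψ']
    rfl

end Bimodule

section HDualActions

variable {𝔄 : Type} [NormedRing 𝔄] [NormedAlgebra ℂ 𝔄]

/-- `x ⊗ y ↦ x ⊗ ya`. -/
noncomputable def mulR (a : 𝔄) : HTensor 𝔄 →ₗ[ℂ] HTensor 𝔄 :=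
  TensorProduct.map (LinearMap.id : 𝔄 →ₗ[ℂ] 𝔄) (LinearMap.mulRight ℂ a)

/-- `x ⊗ y ↦ bx ⊗ y`. -/
noncomputable def mulL (b : 𝔄) : HTensor 𝔄 →ₗ[ℂ] HTensor 𝔄 :=
  TensorProduct.map (LinearMap.mulLeft ℂ b) (LinearMap.id : 𝔄 →ₗ[ℂ] 𝔄)

@[simp] theorem mulR_tmul (a x y : 𝔄) : mulR a (tmul x y) = tmul x (y * a) := rfl

@[simp] theorem mulL_tmul (b x y : 𝔄) : mulL b (tmul x y) = tmul (b * x) y := rfl

variable [StarRing 𝔄] [StarModule ℂ 𝔄] [NormedStarGroup 𝔄]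

theorem hext {X : Type*} [AddCommGroup X] [Module ℂ X] {f g : HTensor 𝔄 →ₗ[ℂ] X}
    (h : ∀ x y, f (tmul x y) = g (tmul x y)) : f = g :=
  TensorProduct.ext' h

theorem hdual_ext {f g : HDual 𝔄} (h : ∀ x y, f (tmul x y) = g (tmul x y)) : f = g := by
  have : (LinearMapClass.linearMap f : HTensor 𝔄 →ₗ[ℂ] ℂ) = LinearMapClass.linearMap g := hext h
  exact DFunLike.ext _ _ fun u => LinearMap.congr_fun this u

theorem norm_mulR_le (a : 𝔄) (u : HTensor 𝔄) : ‖mulR a u‖ ≤ ‖a‖ * ‖u‖ := by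
  have key : ∀ t ∈ haagerupSet u, haagerup (mulR a u) ≤ ‖a‖ * t := by
    rintro t ⟨n, x, y, hu, rfl⟩
    have h := haagerup_le x (fun j => y j * a)
    have e1 : (∑ j, tmul (x j) (y j * a)) = mulR a u := by
      rw [hu, map_sum]
      rfl
    have e2 : (∑ j, star (y j * a) * (y j * a)) = star a * (∑ j, star (y j) * y j) * a := by
      rw [Finset.mul_sum, Finset.sum_mul]
      exact Finset.sum_congr rfl fun j _ => by rw [star_mul]; simp only [mul_assoc]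
    have e3 : ‖star a * (∑ j, star (y j) * y j) * a‖ ≤ ‖a‖ ^ 2 * ‖∑ j, star (y j) * y j‖ := by
      refine (norm_mul_le _ _).trans ?_
      have := norm_mul_le (star a) (∑ j, star (y j) * y j)
      rw [norm_star] at this
      calc ‖star a * ∑ j, star (y j) * y j‖ * ‖a‖ ≤ (‖a‖ * ‖∑ j, star (y j) * y j‖) * ‖a‖ := by
            gcongr
        _ = _ := by ring
    rw [e1, e2] at h
    refine h.trans ?_
    have e4 : Real.sqrt ‖star a * (∑ j, star (y j) * y j) * a‖ ≤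
        ‖a‖ * Real.sqrt ‖∑ j, star (y j) * y j‖ := by
      refine (Real.sqrt_le_sqrt e3).trans_eq ?_
      rw [Real.sqrt_mul (by positivity), Real.sqrt_sq (norm_nonneg a)]
    calc _ ≤ Real.sqrt ‖∑ j, x j * star (x j)‖ * (‖a‖ * Real.sqrt ‖∑ j, star (y j) * y j‖) := by
          gcongr
      _ = _ := by ring
  rcases eq_or_lt_of_le (norm_nonneg a) with h0 | h0
  · obtain ⟨t, ht⟩ := haagerupSet_nonempty u
    have := key t ht
    rw [← h0, zero_mul] at this ⊢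
    exact this
  · rw [← div_le_iff₀' h0]
    refine le_csInf (haagerupSet_nonempty u) fun t ht => ?_
    rw [div_le_iff₀' h0]
    exact key t ht

theorem norm_mulL_le (b : 𝔄) (u : HTensor 𝔄) : ‖mulL b u‖ ≤ ‖b‖ * ‖u‖ := by
  have key : ∀ t ∈ haagerupSet u, haagerup (mulL b u) ≤ ‖b‖ * t := by
    rintro t ⟨n, x, y, hu, rfl⟩
    have h := haagerup_le (fun j => b * x j) y
    have e1 : (∑ j, tmul (b * x j) (y j)) = mulL b u := by
      rw [hu, map_sum]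
      rfl
    have e2 : (∑ j, (b * x j) * star (b * x j)) = b * (∑ j, x j * star (x j)) * star b := by
      rw [Finset.mul_sum, Finset.sum_mul]
      exact Finset.sum_congr rfl fun j _ => by rw [star_mul]; simp only [mul_assoc]
    have e3 : ‖b * (∑ j, x j * star (x j)) * star b‖ ≤ ‖b‖ ^ 2 * ‖∑ j, x j * star (x j)‖ := by
      refine (norm_mul_le _ _).trans ?_
      rw [norm_star]
      have := norm_mul_le b (∑ j, x j * star (x j))
      calc ‖b * ∑ j, x j * star (x j)‖ * ‖b‖ ≤ (‖b‖ * ‖∑ j, x j * star (x j)‖) * ‖b‖ := by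
            gcongr
        _ = _ := by ring
    rw [e1, e2] at h
    refine h.trans ?_
    have e4 : Real.sqrt ‖b * (∑ j, x j * star (x j)) * star b‖ ≤
        ‖b‖ * Real.sqrt ‖∑ j, x j * star (x j)‖ := by
      refine (Real.sqrt_le_sqrt e3).trans_eq ?_
      rw [Real.sqrt_mul (by positivity), Real.sqrt_sq (norm_nonneg b)]
    calc _ ≤ (‖b‖ * Real.sqrt ‖∑ j, x j * star (x j)‖) * Real.sqrt ‖∑ j, star (y j) * y j‖ := by
          gcongr
      _ = _ := by ring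
  rcases eq_or_lt_of_le (norm_nonneg b) with h0 | h0
  · obtain ⟨t, ht⟩ := haagerupSet_nonempty u
    have := key t ht
    rw [← h0, zero_mul] at this ⊢
    exact this
  · rw [← div_le_iff₀' h0]
    refine le_csInf (haagerupSet_nonempty u) fun t ht => ?_
    rw [div_le_iff₀' h0]
    exact key t ht

/-- `(a·f)(u) = f(u·a)`, where `(x ⊗ y)·a = x ⊗ ya`. -/
noncomputable def actL (a : 𝔄) (f : HDual 𝔄) : HDual 𝔄 :=
  HDual.mk ((LinearMapClass.linearMap f).comp (mulR a)) (‖a‖ * ‖f‖) fun u => by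
    calc ‖f (mulR a u)‖ ≤ ‖f‖ * ‖mulR a u‖ := f.le_opNorm _
      _ ≤ ‖f‖ * (‖a‖ * ‖u‖) := by gcongr; exact norm_mulR_le a u
      _ = ‖a‖ * ‖f‖ * ‖u‖ := by ring

/-- `(f·b)(u) = f(b·u)`, where `b·(x ⊗ y) = bx ⊗ y`. -/
noncomputable def actR (b : 𝔄) (f : HDual 𝔄) : HDual 𝔄 :=
  HDual.mk ((LinearMapClass.linearMap f).comp (mulL b)) (‖b‖ * ‖f‖) fun u => by
    calc ‖f (mulL b u)‖ ≤ ‖f‖ * ‖mulL b u‖ := f.le_opNorm _
      _ ≤ ‖f‖ * (‖b‖ * ‖u‖) := by gcongr; exact norm_mulL_le b u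
      _ = ‖b‖ * ‖f‖ * ‖u‖ := by ring

theorem actL_apply (a : 𝔄) (f : HDual 𝔄) (u : HTensor 𝔄) : actL a f u = f (mulR a u) := rfl

theorem actR_apply (b : 𝔄) (f : HDual 𝔄) (u : HTensor 𝔄) : actR b f u = f (mulL b u) := rfl

@[simp] theorem actL_tmul (a : 𝔄) (f : HDual 𝔄) (x y : 𝔄) :
    actL a f (tmul x y) = f (tmul x (y * a)) := rfl

@[simp] theorem actR_tmul (b : 𝔄) (f : HDual 𝔄) (x y : 𝔄) :
    actR b f (tmul x y) = f (tmul (b * x) y) := rfl

theorem norm_actL_le (a : 𝔄) (f : HDual 𝔄) : ‖actL a f‖ ≤ ‖a‖ * ‖f‖ := by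
  refine HDual.opNorm_le_bound _ (by positivity) fun u => ?_
  calc ‖f (mulR a u)‖ ≤ ‖f‖ * ‖mulR a u‖ := f.le_opNorm _
    _ ≤ ‖f‖ * (‖a‖ * ‖u‖) := by gcongr; exact norm_mulR_le a u
    _ = ‖a‖ * ‖f‖ * ‖u‖ := by ring

theorem norm_actR_le (b : 𝔄) (f : HDual 𝔄) : ‖actR b f‖ ≤ ‖b‖ * ‖f‖ := by
  refine HDual.opNorm_le_bound _ (by positivity) fun u => ?_
  calc ‖f (mulL b u)‖ ≤ ‖f‖ * ‖mulL b u‖ := f.le_opNorm _
    _ ≤ ‖f‖ * (‖b‖ * ‖u‖) := by gcongr; exact norm_mulL_le b u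
    _ = ‖b‖ * ‖f‖ * ‖u‖ := by ring

end HDualActions

end Pool.Agent.Helper172.HD
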