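import Mathlib
import Pool.Agent.Helper172.HD.Bimod

set_option autoImplicit false

open scoped InnerProductSpace TensorProduct

namespace Pool.Agent.Helper172.HD

section NormalDual

variable {H : Type} [NormedAddCommGroup H] [InnerProductSpace ℂ H] [CompleteSpace H]
variable (A : VonNeumannAlgebra H)

/-- The von Neumann algebra `A`, as a normed *-algebra (a subtype of `H →L[ℂ] H`, with the
operations and the norm of `H →L[ℂ] H`). -/
def VN : Type := ↥A.toStarSubalgebra

namespace VN

noncomputable instance : NormedRing (VN A) := inferInstanceAs (NormedRing ↥A.toStarSubalgebra)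

noncomputable instance : NormedAlgebra ℂ (VN A) :=
  inferInstanceAs (NormedAlgebra ℂ ↥A.toStarSubalgebra)

noncomputable instance : StarRing (VN A) := inferInstanceAs (StarRing ↥A.toStarSubalgebra)

instance : StarModule ℂ (VN A) := inferInstanceAs (StarModule ℂ ↥A.toStarSubalgebra)

instance : CStarRing (VN A) := inferInstanceAs (CStarRing ↥A.toStarSubalgebra)

instance : NormedStarGroup (VN A) := inferInstanceAs (NormedStarGroup ↥A.toStarSubalgebra)

variable {A}

/-- The operator underlying an element of `A`. -/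
def op (x : VN A) : H →L[ℂ] H := x.1

theorem op_mem (x : VN A) : x.op ∈ A := x.2

/-- An operator in `A`, as an element of `VN A`. -/
def of (x : H →L[ℂ] H) (hx : x ∈ A) : VN A := ⟨x, hx⟩

@[simp] theorem op_of (x : H →L[ℂ] H) (hx : x ∈ A) : (of x hx).op = x := rfl

@[simp] theorem op_add (x y : VN A) : (x + y).op = x.op + y.op := rfl

@[simp] theorem op_mul (x y : VN A) : (x * y).op = x.op * y.op := rfl

@[simp] theorem op_smul (c : ℂ) (x : VN A) : (c • x).op = c • x.op := rfl

@[simp] theorem op_star (x : VN A) : (star x).op = star x.op := rfl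

@[simp] theorem op_one : (1 : VN A).op = 1 := rfl

@[simp] theorem op_zero : (0 : VN A).op = 0 := rfl

theorem norm_op (x : VN A) : ‖x.op‖ = ‖x‖ := rfl

theorem ext_op {x y : VN A} (h : x.op = y.op) : x = y := Subtype.ext h

end VN

/-- The vector functional `x ↦ ⟨xξ, η⟩` on `A` (the inner product of mathlib is linear in the
second variable). -/
noncomputable def vectorFunctional (ξ η : H) : VN A →L[ℂ] ℂ :=
  LinearMap.mkContinuous
    { toFun := fun x => ⟪η, x.op ξ⟫_ℂ
      map_add' := fun x y => by simp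
      map_smul' := fun c x => by simp }
    (‖η‖ * ‖ξ‖) (fun x => by
      calc ‖⟪η, x.op ξ⟫_ℂ‖ ≤ ‖η‖ * ‖x.op ξ‖ := norm_inner_le_norm _ _
        _ ≤ ‖η‖ * (‖x.op‖ * ‖ξ‖) := by
          gcongr; exact x.op.le_opNorm ξ
        _ = ‖η‖ * ‖ξ‖ * ‖x‖ := by
          rw [VN.norm_op]; ring)

@[simp] theorem vectorFunctional_apply (ξ η : H) (x : VN A) :
    vectorFunctional A ξ η x = ⟪η, x.op ξ⟫_ℂ := rfl

/-- The predual of `A`: the norm closure in `A^*` of the span of the vector functionals. -/
noncomputable def predual : Submodule ℂ (VN A →L[ℂ] ℂ) :=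
  (Submodule.span ℂ (Set.range fun p : H × H => vectorFunctional A p.1 p.2)).topologicalClosure

/-- The weak* topology `σ(A, A_*)` of `A`. -/
noncomputable def weakStarTopology : TopologicalSpace (VN A) :=
  ⨅ φ : predual A, TopologicalSpace.induced (fun x => (φ : VN A →L[ℂ] ℂ) x) inferInstance

/-- `(A × A)^h_*`: the elements of the dual of `A ⊗ A` with the Haagerup norm which are
separately weak*-continuous. -/
noncomputable def normalHDual : Submodule ℂ (HDual (VN A)) where
  carrier := {f | (∀ x, @Continuous _ _ (weakStarTopology A) _ fun y => f (tmul x y)) ∧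
    ∀ y, @Continuous _ _ (weakStarTopology A) _ fun x => f (tmul x y)}
  add_mem' := by
    rintro f g ⟨hf, hf'⟩ ⟨hg, hg'⟩
    let := weakStarTopology A
    exact ⟨fun x => (hf x).add (hg x), fun y => (hf' y).add (hg' y)⟩
  zero_mem' := by
    let := weakStarTopology A
    exact ⟨fun x => by simpa using continuous_const, fun y => by simpa using continuous_const⟩
  smul_mem' := by
    rintro c f ⟨hf, hf'⟩
    let := weakStarTopology A
    exact ⟨fun x => (hf x).const_smul c, fun y => (hf' y).const_smul c⟩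

variable {A}

theorem continuous_iff_mem_predual (φ : VN A →L[ℂ] ℂ) :
    @Continuous _ _ (weakStarTopology A) _ (fun x => φ x) ↔ φ ∈ predual A := by
  have h := LinearMap.mem_span_iff_continuous (𝕜 := ℂ)
    (f := fun ψ : predual A => ((ψ : VN A →L[ℂ] ℂ) : VN A →ₗ[ℂ] ℂ)) (φ : VN A →ₗ[ℂ] ℂ)
  have h2 : (φ : VN A →ₗ[ℂ] ℂ) ∈ Submodule.span ℂ
      (Set.range fun ψ : predual A => ((ψ : VN A →L[ℂ] ℂ) : VN A →ₗ[ℂ] ℂ)) ↔ φ ∈ predual A := by
    constructor
    · intro hm
      have : (φ : VN A →ₗ[ℂ] ℂ) ∈ (predual A).map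
          (ContinuousLinearMap.coeLM ℂ : (VN A →L[ℂ] ℂ) →ₗ[ℂ] (VN A →ₗ[ℂ] ℂ)) := by
        refine (Submodule.span_le.2 ?_) hm
        rintro _ ⟨ψ, rfl⟩
        exact ⟨ψ, ψ.2, rfl⟩
      obtain ⟨ψ, hψ, hψ'⟩ := this
      have : ψ = φ := ContinuousLinearMap.coe_injective hψ'
      rwa [← this]
    · intro hm
      exact Submodule.subset_span ⟨⟨φ, hm⟩, rfl⟩
  rw [← h2, h]
  rfl

theorem norm_tmul_le (x y : VN A) : ‖tmul x y‖ ≤ ‖x‖ * ‖y‖ := by
  have h := norm_sum_tmul_le (fun _ : Unit => x) (fun _ : Unit => y)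
  simp only [Finset.univ_unique, Finset.sum_const, Finset.card_singleton, one_smul] at h
  rwa [CStarRing.norm_self_mul_star, CStarRing.norm_star_mul_self,
    Real.sqrt_mul_self (norm_nonneg _), Real.sqrt_mul_self (norm_nonneg _)] at h

/-- `f ↦ f(x ⊗ ·)`. -/
noncomputable def secR (x : VN A) : HDual (VN A) →L[ℂ] (VN A →L[ℂ] ℂ) :=
  LinearMap.mkContinuous₂
    (LinearMap.mk₂ ℂ (fun (f : HDual (VN A)) (y : VN A) => f (tmul x y))
      (fun f g y => HDual.add_apply f g _) (fun c f y => HDual.smul_apply c f _)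
      (fun f y z => by rw [tmul_add, map_add]) (fun c f y => by rw [tmul_smul, map_smul]))
    ‖x‖ (fun f y => by
      calc ‖f (tmul x y)‖ ≤ ‖f‖ * ‖tmul x y‖ := f.le_opNorm _
        _ ≤ ‖f‖ * (‖x‖ * ‖y‖) := by gcongr; exact norm_tmul_le x y
        _ = ‖x‖ * ‖f‖ * ‖y‖ := by ring)

/-- `f ↦ f(· ⊗ y)`. -/
noncomputable def secL (y : VN A) : HDual (VN A) →L[ℂ] (VN A →L[ℂ] ℂ) :=
  LinearMap.mkContinuous₂
    (LinearMap.mk₂ ℂ (fun (f : HDual (VN A)) (x : VN A) => f (tmul x y))
      (fun f g x => HDual.add_apply f g _) (fun c f x => HDual.smul_apply c f _)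
      (fun f x z => by rw [add_tmul, map_add]) (fun c f x => by rw [smul_tmul, map_smul]))
    ‖y‖ (fun f x => by
      calc ‖f (tmul x y)‖ ≤ ‖f‖ * ‖tmul x y‖ := f.le_opNorm _
        _ ≤ ‖f‖ * (‖x‖ * ‖y‖) := by gcongr; exact norm_tmul_le x y
        _ = ‖y‖ * ‖f‖ * ‖x‖ := by ring)

@[simp] theorem secR_apply (x y : VN A) (f : HDual (VN A)) : secR x f y = f (tmul x y) := rfl

@[simp] theorem secL_apply (x y : VN A) (f : HDual (VN A)) : secL y f x = f (tmul x y) := rfl

theorem continuous_right_iff (f : HDual (VN A)) (x : VN A) :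
    @Continuous _ _ (weakStarTopology A) _ (fun y => f (tmul x y)) ↔ secR x f ∈ predual A := by
  have h := continuous_iff_mem_predual (secR x f)
  simp only [secR_apply] at h
  exact h

theorem continuous_left_iff (f : HDual (VN A)) (y : VN A) :
    @Continuous _ _ (weakStarTopology A) _ (fun x => f (tmul x y)) ↔ secL y f ∈ predual A := by
  have h := continuous_iff_mem_predual (secL y f)
  simp only [secL_apply] at h
  exact h

theorem mem_normalHDual_iff (f : HDual (VN A)) :
    f ∈ normalHDual A ↔ (∀ x, secR x f ∈ predual A) ∧ ∀ y, secL y f ∈ predual A :=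
  and_congr (forall_congr' fun x => continuous_right_iff f x)
    (forall_congr' fun y => continuous_left_iff f y)

theorem isClosed_predual : IsClosed (predual A : Set (VN A →L[ℂ] ℂ)) :=
  Submodule.isClosed_topologicalClosure _

theorem isClosed_normalHDual : IsClosed (normalHDual A : Set (HDual (VN A))) := by
  have h1 : IsClosed (⋂ x, (secR x) ⁻¹' (predual A : Set (VN A →L[ℂ] ℂ)) : Set (HDual (VN A))) :=
    isClosed_iInter fun x => isClosed_predual.preimage (secR x).continuous
  have h2 : IsClosed (⋂ y, (secL y) ⁻¹' (predual A : Set (VN A →L[ℂ] ℂ)) : Set (HDual (VN A))) :=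
    isClosed_iInter fun y => isClosed_predual.preimage (secL y).continuous
  have h3 : (normalHDual A : Set (HDual (VN A))) =
      (⋂ x, (secR x) ⁻¹' (predual A : Set (VN A →L[ℂ] ℂ))) ∩
        ⋂ y, (secL y) ⁻¹' (predual A : Set (VN A →L[ℂ] ℂ)) := by
    ext f
    rw [SetLike.mem_coe, mem_normalHDual_iff, Set.mem_inter_iff, Set.mem_iInter, Set.mem_iInter]
    rfl
  rw [h3]
  exact h1.inter h2

instance : CompleteSpace (normalHDual A) := isClosed_normalHDual.completeSpace_coe

theorem predual_of_map (T : (VN A →L[ℂ] ℂ) →L[ℂ] (VN A →L[ℂ] ℂ))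
    (hT : ∀ ξ η : H, T (vectorFunctional A ξ η) ∈ predual A) {φ : VN A →L[ℂ] ℂ}
    (hφ : φ ∈ predual A) : T φ ∈ predual A := by
  have h1 : Submodule.span ℂ (Set.range fun p : H × H => vectorFunctional A p.1 p.2) ≤
      (predual A).comap (T : (VN A →L[ℂ] ℂ) →ₗ[ℂ] (VN A →L[ℂ] ℂ)) := by
    rw [Submodule.span_le]
    rintro _ ⟨p, rfl⟩
    exact hT p.1 p.2
  have h2 : IsClosed ((predual A).comap (T : (VN A →L[ℂ] ℂ) →ₗ[ℂ] (VN A →L[ℂ] ℂ)) :
      Set (VN A →L[ℂ] ℂ)) := isClosed_predual.preimage T.continuous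
  exact (Submodule.topologicalClosure_minimal _ h1 h2) hφ

theorem vectorFunctional_mem (ξ η : H) : vectorFunctional A ξ η ∈ predual A :=
  Submodule.le_topologicalClosure _ (Submodule.subset_span ⟨(ξ, η), rfl⟩)

/-- `φ ↦ φ(· a)`. -/
noncomputable def precR (a : VN A) : (VN A →L[ℂ] ℂ) →L[ℂ] (VN A →L[ℂ] ℂ) :=
  (ContinuousLinearMap.compL ℂ (VN A) (VN A) ℂ).flip ((ContinuousLinearMap.mul ℂ (VN A)).flip a)

/-- `φ ↦ φ(b ·)`. -/
noncomputable def precL (b : VN A) : (VN A →L[ℂ] ℂ) →L[ℂ] (VN A →L[ℂ] ℂ) :=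
  (ContinuousLinearMap.compL ℂ (VN A) (VN A) ℂ).flip (ContinuousLinearMap.mul ℂ (VN A) b)

theorem precR_mem (a : VN A) {φ : VN A →L[ℂ] ℂ} (hφ : φ ∈ predual A) :
    precR a φ ∈ predual A := by
  refine predual_of_map (precR a) (fun ξ η => ?_) hφ
  have : precR a (vectorFunctional A ξ η) = vectorFunctional A (a.op ξ) η := by
    ext x
    simp [precR]
  rw [this]
  exact vectorFunctional_mem _ _

theorem precL_mem (b : VN A) {φ : VN A →L[ℂ] ℂ} (hφ : φ ∈ predual A) :
    precL b φ ∈ predual A := by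
  refine predual_of_map (precL b) (fun ξ η => ?_) hφ
  have : precL b (vectorFunctional A ξ η) =
      vectorFunctional A ξ ((star b.op) η) := by
    ext x
    simp [precL, ContinuousLinearMap.star_eq_adjoint, ContinuousLinearMap.adjoint_inner_left]
  rw [this]
  exact vectorFunctional_mem _ _

theorem actL_mem (a : VN A) {f : HDual (VN A)} (hf : f ∈ normalHDual A) :
    actL a f ∈ normalHDual A := by
  rw [mem_normalHDual_iff] at hf ⊢
  refine ⟨fun x => ?_, fun y => ?_⟩
  · exact precR_mem a (hf.1 x)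
  · exact hf.2 (y * a)

theorem actR_mem (b : VN A) {f : HDual (VN A)} (hf : f ∈ normalHDual A) :
    actR b f ∈ normalHDual A := by
  rw [mem_normalHDual_iff] at hf ⊢
  refine ⟨fun x => ?_, fun y => ?_⟩
  · exact hf.1 (b * x)
  · exact precL_mem b (hf.2 y)

variable (A)

/-- The `A`-bimodule `(A × A)^h_*`: `(a·f)(x ⊗ y) = f(x ⊗ ya)` and `(f·b)(x ⊗ y) = f(bx ⊗ y)`. -/
noncomputable def normalHDualBimodule : LinBimodule (VN A) (normalHDual A) where
  l := LinearMap.mk₂ ℂ (fun a f => ⟨actL a f, actL_mem a f.2⟩)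
    (fun a a' f => Subtype.ext (hdual_ext fun x y => by simp [mul_add, tmul_add]))
    (fun c a f => Subtype.ext (hdual_ext fun x y => by simp [tmul_smul]))
    (fun a f f' => Subtype.ext (hdual_ext fun x y => by simp))
    (fun c a f => Subtype.ext (hdual_ext fun x y => by simp))
  r := LinearMap.mk₂ ℂ (fun b f => ⟨actR b f, actR_mem b f.2⟩)
    (fun a a' f => Subtype.ext (hdual_ext fun x y => by simp [add_mul, add_tmul]))
    (fun c a f => Subtype.ext (hdual_ext fun x y => by simp [smul_tmul]))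
    (fun a f f' => Subtype.ext (hdual_ext fun x y => by simp))
    (fun c a f => Subtype.ext (hdual_ext fun x y => by simp))
  norm_l_le := fun a f => norm_actL_le a (f : HDual (VN A))
  norm_r_le := fun b f => norm_actR_le b (f : HDual (VN A))
  one_l := fun f => Subtype.ext (hdual_ext fun x y => by simp)
  one_r := fun f => Subtype.ext (hdual_ext fun x y => by simp)
  mul_l := fun a b f => Subtype.ext (hdual_ext fun x y => by simp [mul_assoc])
  mul_r := fun a b f => Subtype.ext (hdual_ext fun x y => by simp [mul_assoc])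
  comm := fun a b f => Subtype.ext (hdual_ext fun x y => by simp)

end NormalDual

end Pool.Agent.Helper172.HD
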