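import Mathlib
import Pool.Agent.Helper172.HD.NormalDual

set_option autoImplicit false

open scoped InnerProductSpace TensorProduct

namespace Pool.Agent.Helper172.HD

section Forms

variable {H : Type} [NormedAddCommGroup H] [InnerProductSpace ℂ H] [CompleteSpace H]

theorem sum_norm_sq_le {ι : Type*} [Fintype ι] (y : ι → (H →L[ℂ] H)) (ξ : H) :
    ∑ j, ‖y j ξ‖ ^ 2 ≤ ‖∑ j, star (y j) * y j‖ * ‖ξ‖ ^ 2 := by
  have h1 : ((∑ j, ‖y j ξ‖ ^ 2 : ℝ) : ℂ) = ⟪ξ, (∑ j, star (y j) * y j) ξ⟫_ℂ := by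
    rw [sum_apply, inner_sum]
    push_cast
    refine Finset.sum_congr rfl fun j _ => ?_
    change _ = ⟪ξ, star (y j) (y j ξ)⟫_ℂ
    rw [ContinuousLinearMap.star_eq_adjoint,
      ContinuousLinearMap.adjoint_inner_right, inner_self_eq_norm_sq_to_K]
    simp
  have h2 : ‖((∑ j, ‖y j ξ‖ ^ 2 : ℝ) : ℂ)‖ = ∑ j, ‖y j ξ‖ ^ 2 := by
    rw [Complex.norm_real, Real.norm_eq_abs, abs_of_nonneg (by positivity)]
  rw [← h2, h1]
  calc ‖⟪ξ, (∑ j, star (y j) * y j) ξ⟫_ℂ‖ ≤ ‖ξ‖ * ‖(∑ j, star (y j) * y j) ξ‖ :=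
        norm_inner_le_norm _ _
    _ ≤ ‖ξ‖ * (‖∑ j, star (y j) * y j‖ * ‖ξ‖) := by
        gcongr; exact ContinuousLinearMap.le_opNorm _ _
    _ = _ := by ring

theorem norm_sum_inner_le {ι : Type*} [Fintype ι] (x y : ι → (H →L[ℂ] H)) (T : H →L[ℂ] H)
    (ξ η : H) : ‖∑ j, ⟪η, x j (T (y j ξ))⟫_ℂ‖ ≤ ‖T‖ * ‖ξ‖ * ‖η‖ *
      (Real.sqrt ‖∑ j, x j * star (x j)‖ * Real.sqrt ‖∑ j, star (y j) * y j‖) := by
  have h1 : ∀ j, ‖⟪η, x j (T (y j ξ))⟫_ℂ‖ ≤ ‖star (x j) η‖ * (‖T‖ * ‖y j ξ‖) := fun j => by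
    rw [← ContinuousLinearMap.adjoint_inner_left, ← ContinuousLinearMap.star_eq_adjoint]
    exact (norm_inner_le_norm _ _).trans (by gcongr; exact T.le_opNorm _)
  have h2 : ∑ j, ‖star (x j) η‖ * ‖y j ξ‖ ≤
      Real.sqrt (∑ j, ‖star (x j) η‖ ^ 2) * Real.sqrt (∑ j, ‖y j ξ‖ ^ 2) :=
    Real.sum_mul_le_sqrt_mul_sqrt _ _ _
  have h3 : Real.sqrt (∑ j, ‖star (x j) η‖ ^ 2) ≤
      Real.sqrt ‖∑ j, x j * star (x j)‖ * ‖η‖ := by
    have := sum_norm_sq_le (fun j => star (x j)) η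
    simp only [star_star] at this
    refine (Real.sqrt_le_sqrt this).trans_eq ?_
    rw [Real.sqrt_mul (norm_nonneg _), Real.sqrt_sq (norm_nonneg _)]
  have h4 : Real.sqrt (∑ j, ‖y j ξ‖ ^ 2) ≤ Real.sqrt ‖∑ j, star (y j) * y j‖ * ‖ξ‖ := by
    refine (Real.sqrt_le_sqrt (sum_norm_sq_le y ξ)).trans_eq ?_
    rw [Real.sqrt_mul (norm_nonneg _), Real.sqrt_sq (norm_nonneg _)]
  calc ‖∑ j, ⟪η, x j (T (y j ξ))⟫_ℂ‖ ≤ ∑ j, ‖⟪η, x j (T (y j ξ))⟫_ℂ‖ := norm_sum_le _ _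
    _ ≤ ∑ j, ‖star (x j) η‖ * (‖T‖ * ‖y j ξ‖) := Finset.sum_le_sum fun j _ => h1 j
    _ = ‖T‖ * ∑ j, ‖star (x j) η‖ * ‖y j ξ‖ := by
        rw [Finset.mul_sum]; exact Finset.sum_congr rfl fun j _ => by ring
    _ ≤ ‖T‖ * ((Real.sqrt ‖∑ j, x j * star (x j)‖ * ‖η‖) *
          (Real.sqrt ‖∑ j, star (y j) * y j‖ * ‖ξ‖)) := by
        refine mul_le_mul_of_nonneg_left (h2.trans ?_) (norm_nonneg _)
        exact mul_le_mul h3 h4 (Real.sqrt_nonneg _) (by positivity)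
    _ = _ := by ring

variable (A : VonNeumannAlgebra H)

variable {A} in
theorem VN.op_sum {ι : Type*} (s : Finset ι) (x : ι → VN A) : (∑ j ∈ s, x j).op = ∑ j ∈ s, (x j).op := by
  classical
  induction s using Finset.induction_on with
  | empty => simp
  | insert a s ha ih => rw [Finset.sum_insert ha, Finset.sum_insert ha, VN.op_add, ih]

/-- The bilinear map `(x, y) ↦ ⟨x T y ξ, η⟩`. -/
noncomputable def formBilin (ξ η : H) (T : H →L[ℂ] H) : VN A →ₗ[ℂ] VN A →ₗ[ℂ] ℂ :=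
  LinearMap.mk₂ ℂ (fun x y => ⟪η, x.op (T (y.op ξ))⟫_ℂ)
    (fun x x' y => by simp) (fun c x y => by simp)
    (fun x y y' => by simp) (fun c x y => by simp)

/-- The linear functional `x ⊗ y ↦ ⟨x T y ξ, η⟩`. -/
noncomputable def formLin (ξ η : H) (T : H →L[ℂ] H) : HTensor (VN A) →ₗ[ℂ] ℂ :=
  TensorProduct.lift (formBilin A ξ η T)

theorem formLin_tmul (ξ η : H) (T : H →L[ℂ] H) (x y : VN A) :
    formLin A ξ η T (tmul x y) = ⟪η, x.op (T (y.op ξ))⟫_ℂ := rfl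

theorem norm_formLin_le (ξ η : H) (T : H →L[ℂ] H) (u : HTensor (VN A)) :
    ‖formLin A ξ η T u‖ ≤ ‖T‖ * ‖ξ‖ * ‖η‖ * ‖u‖ := by
  have key : ∀ t ∈ haagerupSet u, ‖formLin A ξ η T u‖ ≤ ‖T‖ * ‖ξ‖ * ‖η‖ * t := by
    rintro t ⟨n, x, y, hu, rfl⟩
    have h := norm_sum_inner_le (fun j => (x j).op) (fun j => (y j).op) T ξ η
    have e1 : formLin A ξ η T u = ∑ j, ⟪η, (x j).op (T ((y j).op ξ))⟫_ℂ := by
      rw [hu, map_sum]
      rfl
    have e2 : ‖∑ j, (x j).op * star (x j).op‖ = ‖∑ j, x j * star (x j)‖ := by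
      rw [← VN.norm_op, VN.op_sum]
      rfl
    have e3 : ‖∑ j, star (y j).op * (y j).op‖ = ‖∑ j, star (y j) * y j‖ := by
      rw [← VN.norm_op, VN.op_sum]
      rfl
    rw [e1]
    simp only [e2, e3] at h
    exact h
  rcases eq_or_lt_of_le (show 0 ≤ ‖T‖ * ‖ξ‖ * ‖η‖ by positivity) with h0 | h0
  · obtain ⟨t, ht⟩ := haagerupSet_nonempty u
    have := key t ht
    rw [← h0, zero_mul] at this ⊢
    exact this
  · rw [← div_le_iff₀' h0]
    refine le_csInf (haagerupSet_nonempty u) fun t ht => ?_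
    rw [div_le_iff₀' h0]
    exact key t ht

/-- `x ⊗ y ↦ ⟨x T y ξ, η⟩` as an element of the dual. -/
noncomputable def form (ξ η : H) (T : H →L[ℂ] H) : HDual (VN A) :=
  HDual.mk (formLin A ξ η T) (‖T‖ * ‖ξ‖ * ‖η‖) (norm_formLin_le A ξ η T)

@[simp] theorem form_tmul (ξ η : H) (T : H →L[ℂ] H) (x y : VN A) :
    form A ξ η T (tmul x y) = ⟪η, x.op (T (y.op ξ))⟫_ℂ := rfl

theorem norm_form_le (ξ η : H) (T : H →L[ℂ] H) : ‖form A ξ η T‖ ≤ ‖T‖ * ‖ξ‖ * ‖η‖ :=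
  HDual.opNorm_le_bound _ (by positivity) (norm_formLin_le A ξ η T)

theorem form_mem (ξ η : H) (T : H →L[ℂ] H) : form A ξ η T ∈ normalHDual A := by
  rw [mem_normalHDual_iff]
  refine ⟨fun x => ?_, fun y => ?_⟩
  · have : secR x (form A ξ η T) = vectorFunctional A ξ (star (x.op * T) η) := by
      ext y
      rw [secR_apply, form_tmul, vectorFunctional_apply, ContinuousLinearMap.star_eq_adjoint,
        ContinuousLinearMap.adjoint_inner_left]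
      rfl
    rw [this]
    exact vectorFunctional_mem _ _
  · have : secL y (form A ξ η T) = vectorFunctional A (T (y.op ξ)) η := by
      ext x
      rw [secL_apply, form_tmul, vectorFunctional_apply]
    rw [this]
    exact vectorFunctional_mem _ _

variable {K : Type} [Fintype K]

/-- The form `(x, y) ↦ ⟨x T y ξ, ξ⟩` as an element of `(A × A)^h_*`. -/
noncomputable def nform (ξ : H) (T : H →L[ℂ] H) : normalHDual A := ⟨form A ξ ξ T, form_mem A _ _ _⟩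

theorem nform_add (ξ : H) (T S : H →L[ℂ] H) : nform A ξ (T + S) = nform A ξ T + nform A ξ S := by
  apply Subtype.ext
  apply hdual_ext
  intro x y
  change ⟪ξ, x.op ((T + S) (y.op ξ))⟫_ℂ = ⟪ξ, x.op (T (y.op ξ))⟫_ℂ + ⟪ξ, x.op (S (y.op ξ))⟫_ℂ
  simp

theorem nform_smul (ξ : H) (c : ℂ) (T : H →L[ℂ] H) : nform A ξ (c • T) = c • nform A ξ T := by
  apply Subtype.ext
  apply hdual_ext
  intro x y
  change ⟪ξ, x.op ((c • T) (y.op ξ))⟫_ℂ = c • ⟪ξ, x.op (T (y.op ξ))⟫_ℂ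
  simp

/-- The average over `i` of the forms `(x, y) ↦ ⟨x T y ωᵢ, ωᵢ⟩`, as a linear function of `T`. -/
noncomputable def avgForm (ω : K → H) : (H →L[ℂ] H) →ₗ[ℂ] normalHDual A where
  toFun T := ((Fintype.card K : ℂ)⁻¹) • ∑ i, nform A (ω i) T
  map_add' T S := by
    rw [← smul_add, ← Finset.sum_add_distrib]
    congr 1
    exact Finset.sum_congr rfl fun i _ => nform_add A _ _ _
  map_smul' c T := by
    rw [RingHom.id_apply, smul_comm c]
    congr 1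
    rw [Finset.smul_sum]
    exact Finset.sum_congr rfl fun i _ => nform_smul A _ _ _

/-- The functional `x ↦ (1/|K|) ∑ᵢ ⟨x ωᵢ, ωᵢ⟩` on operators. -/
noncomputable def avgState (ω : K → H) (x : H →L[ℂ] H) : ℂ :=
  (Fintype.card K : ℂ)⁻¹ * ∑ i, ⟪ω i, x (ω i)⟫_ℂ

theorem avgForm_tmul (ω : K → H) (T : H →L[ℂ] H) (x y : VN A) :
    (avgForm A ω T : HDual (VN A)) (tmul x y) = avgState ω (x.op * T * y.op) := by
  have h : ∀ (s : Finset K), ((∑ i ∈ s, nform A (ω i) T : normalHDual A) : HDual (VN A))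
      (tmul x y) = ∑ i ∈ s, ⟪ω i, x.op (T (y.op (ω i)))⟫_ℂ := by
    classical
    intro s
    induction s using Finset.induction_on with
    | empty => simp
    | insert a s ha ih =>
      rw [Finset.sum_insert ha, Finset.sum_insert ha, Submodule.coe_add, HDual.add_apply, ih]
      rfl
  change (((Fintype.card K : ℂ)⁻¹ • ∑ i, nform A (ω i) T : normalHDual A) : HDual (VN A))
    (tmul x y) = _
  rw [Submodule.coe_smul, HDual.smul_apply, h]
  rfl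

theorem norm_avgForm_le (ω : K → H) (hω : ∀ i, ‖ω i‖ = 1) (T : H →L[ℂ] H) :
    ‖avgForm A ω T‖ ≤ ‖T‖ := by
  change ‖((Fintype.card K : ℂ)⁻¹) • ∑ i, nform A (ω i) T‖ ≤ _
  rw [norm_smul]
  have h1 : ‖∑ i, nform A (ω i) T‖ ≤ ∑ _i : K, ‖T‖ := by
    refine norm_sum_le_of_le _ fun i _ => ?_
    refine (norm_form_le A (ω i) (ω i) T).trans_eq ?_
    rw [hω, mul_one, mul_one]
  rw [Finset.sum_const, Finset.card_univ, nsmul_eq_mul] at h1
  rcases Nat.eq_zero_or_pos (Fintype.card K) with h0 | h0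
  · rw [h0]; simp
  · rw [norm_inv, Complex.norm_natCast]
    have : (0 : ℝ) < Fintype.card K := by exact_mod_cast h0
    rw [inv_mul_le_iff₀ this]
    exact h1

end Forms

end Pool.Agent.Helper172.HD
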