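import Mathlib
import Pool.Agent.Helper172.HD.Core

set_option autoImplicit false

open scoped InnerProductSpace TensorProduct

namespace Pool.Agent.Helper172.HD

section Signs

variable {E F : Type*} [AddCommGroup E] [Module ℂ E] [AddCommGroup F] [Module ℂ F]

theorem sum_update_smul {G : Type*} [AddCommGroup G] [Module ℂ G] {ι : Type*} [DecidableEq ι]
    (w : ι → G) (ε : ι → ℂ) (δ : ℂ) {a : ι} {s : Finset ι} (ha : a ∉ s) :
    ∑ i ∈ insert a s, Function.update ε a δ i • w i = δ • w a + ∑ i ∈ s, ε i • w i := by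
  rw [Finset.sum_insert ha, Function.update_self]
  congr 1
  refine Finset.sum_congr rfl fun i hi => ?_
  rw [Function.update_of_ne (ne_of_mem_of_not_mem hi ha)]

theorem sign_avg_aux (B : E →ₗ[ℂ] F →ₗ[ℂ] ℂ) {ι : Type*} [DecidableEq ι] (T : ι → E) (z : ι → F)
    (M : ℝ) (s : Finset ι) : ∀ (T0 : E) (z0 : F),
    (∀ ε : ι → ℂ, (∀ i, ε i = 1 ∨ ε i = -1) →
      ‖B (T0 + ∑ i ∈ s, ε i • T i) (z0 + ∑ i ∈ s, ε i • z i)‖ ≤ M) →
    ‖B T0 z0 + ∑ i ∈ s, B (T i) (z i)‖ ≤ M := by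
  induction s using Finset.induction_on with
  | empty =>
    intro T0 z0 h
    simpa using h (fun _ => 1) (fun _ => Or.inl rfl)
  | insert a s ha ih =>
    intro T0 z0 h
    have key : ∀ δ : ℂ, (δ = 1 ∨ δ = -1) →
        ‖B (T0 + δ • T a) (z0 + δ • z a) + ∑ i ∈ s, B (T i) (z i)‖ ≤ M := by
      intro δ hδ
      refine ih _ _ fun ε hε => ?_
      have h1 := h (Function.update ε a δ) (fun i => by
        rcases eq_or_ne i a with rfl | hi
        · simpa using hδ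
        · simpa [hi] using hε i)
      rw [sum_update_smul _ _ _ ha, sum_update_smul _ _ _ ha] at h1
      simpa only [add_assoc] using h1
    have k1 := key 1 (Or.inl rfl)
    have k2 := key (-1) (Or.inr rfl)
    have e2 : B T0 z0 + ∑ i ∈ insert a s, B (T i) (z i) =
        (2⁻¹ : ℂ) * ((B (T0 + (1 : ℂ) • T a) (z0 + (1 : ℂ) • z a) + ∑ i ∈ s, B (T i) (z i)) +
          (B (T0 + (-1 : ℂ) • T a) (z0 + (-1 : ℂ) • z a) + ∑ i ∈ s, B (T i) (z i))) := by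
      rw [Finset.sum_insert ha]
      simp only [one_smul, neg_smul, map_add, map_neg, LinearMap.add_apply, LinearMap.neg_apply]
      ring
    rw [e2, norm_mul]
    calc ‖(2⁻¹ : ℂ)‖ * _ ≤ ‖(2⁻¹ : ℂ)‖ * (M + M) := by
          gcongr
          exact (norm_add_le _ _).trans (add_le_add k1 k2)
      _ = M := by rw [norm_inv]; simp; ring

theorem sign_avg (B : E →ₗ[ℂ] F →ₗ[ℂ] ℂ) {ι : Type*} [Fintype ι] (T : ι → E) (z : ι → F) (M : ℝ)
    (h : ∀ ε : ι → ℂ, (∀ i, ε i = 1 ∨ ε i = -1) →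
      ‖B (∑ i, ε i • T i) (∑ i, ε i • z i)‖ ≤ M) :
    ‖∑ i, B (T i) (z i)‖ ≤ M := by
  classical
  simpa using sign_avg_aux B T z M Finset.univ 0 0 (fun ε hε => by simpa using h ε hε)

theorem sign_avg₂ (B : E →ₗ[ℂ] F →ₗ[ℂ] ℂ) {ι κ : Type*} [Fintype ι] [Fintype κ]
    (T : ι → κ → E) (z : ι → κ → F) (M : ℝ)
    (h : ∀ (η : ι → ℂ) (ε : κ → ℂ), (∀ i, η i = 1 ∨ η i = -1) → (∀ k, ε k = 1 ∨ ε k = -1) →
      ‖B (∑ i, η i • ∑ k, ε k • T i k) (∑ i, η i • ∑ k, ε k • z i k)‖ ≤ M) :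
    ‖∑ i, ∑ k, B (T i k) (z i k)‖ ≤ M := by
  classical
  have h1 : ∀ ε : κ → ℂ, (∀ k, ε k = 1 ∨ ε k = -1) →
      ‖∑ i, B (∑ k, ε k • T i k) (∑ k, ε k • z i k)‖ ≤ M := fun ε hε =>
    sign_avg B _ _ M fun η hη => h η ε hη hε
  let B' : (ι → E) →ₗ[ℂ] (ι → F) →ₗ[ℂ] ℂ :=
    ∑ i, B.compl₁₂ (LinearMap.proj i) (LinearMap.proj i)
  have hB' : ∀ (t : ι → E) (w : ι → F), B' t w = ∑ i, B (t i) (w i) := by
    intro t w
    simp [B', LinearMap.sum_apply]
  have h2 := sign_avg B' (fun k i => T i k) (fun k i => z i k) M (fun ε hε => by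
    rw [hB']
    have := h1 ε hε
    simpa [Finset.sum_apply] using this)
  simp only [hB'] at h2
  rwa [Finset.sum_comm] at h2

end Signs

end Pool.Agent.Helper172.HD
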