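import Mathlib
import Pool.Agent.Helper172.HD.Ineq

set_option autoImplicit false

open scoped InnerProductSpace TensorProduct

namespace Pool.Agent.Helper172.HD

section StarRing

variable {R : Type*} [NormedRing R] [StarRing R] [NormedAlgebra ℂ R] [StarModule ℂ R]
variable {K : Type} [Fintype K] [DecidableEq K]

theorem sign_star_mul {ε : ℂ} (h : ε = 1 ∨ ε = -1) : star ε * ε = 1 := by
  rcases h with rfl | rfl <;> simp

theorem sign_star {ε : ℂ} (h : ε = 1 ∨ ε = -1) : star ε = ε := by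
  rcases h with rfl | rfl <;> simp

theorem star_sum_mul_sum (w : K → R) (p : R)
    (hw : ∀ k l, star (w k) * w l = if k = l then p else 0) (ε : K → ℂ)
    (hε : ∀ k, ε k = 1 ∨ ε k = -1) :
    star (∑ k, ε k • w k) * (∑ k, ε k • w k) = (Fintype.card K : ℂ) • p := by
  rw [star_sum, Finset.sum_mul]
  have : ∀ k, star (ε k • w k) * (∑ l, ε l • w l) = p := by
    intro k
    rw [Finset.mul_sum, Finset.sum_eq_single k]
    · rw [star_smul, smul_mul_smul_comm, hw, if_pos rfl, sign_star_mul (hε k), one_smul]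
    · intro l _ hl
      rw [star_smul, smul_mul_smul_comm, hw, if_neg (Ne.symm hl), smul_zero]
    · intro h; exact absurd (Finset.mem_univ k) h
  rw [Finset.sum_congr rfl fun k _ => this k, Finset.sum_const, Finset.card_univ, ← Nat.cast_smul_eq_nsmul ℂ]

theorem sum_mul_star_sum (w : K → R) (p : R)
    (hw : ∀ k l, w k * star (w l) = if k = l then p else 0) (ε : K → ℂ)
    (hε : ∀ k, ε k = 1 ∨ ε k = -1) :
    (∑ k, ε k • w k) * star (∑ k, ε k • w k) = (Fintype.card K : ℂ) • p := by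
  have h := star_sum_mul_sum (fun k => star (w k)) p (fun k l => by rw [star_star]; exact hw k l)
    ε hε
  have e1 : (∑ k, ε k • star (w k)) = star (∑ k, ε k • w k) := by
    rw [star_sum]
    exact Finset.sum_congr rfl fun k _ => by rw [star_smul, sign_star (hε k)]
  rw [e1, star_star] at h
  exact h

variable [CStarRing R]

theorem norm_proj_le {p : R} (h1 : star p = p) (h2 : p * p = p) : ‖p‖ ≤ 1 := by
  have h := CStarRing.norm_star_mul_self (x := p)
  rw [h1, h2] at h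
  by_contra hc
  push Not at hc
  nlinarith

/-- Matrix units. -/
structure MatUnits (e : K → K → R) : Prop where
  mul : ∀ a b c d, e a b * e c d = if b = c then e a d else 0
  star : ∀ a b, star (e a b) = e b a

variable {e : K → K → R} (he : MatUnits e)
include he

theorem MatUnits.norm_diag_le (a : K) : ‖e a a‖ ≤ 1 :=
  norm_proj_le (he.star a a) (by rw [he.mul, if_pos rfl])

theorem MatUnits.norm_sum_le : ‖∑ a, e a a‖ ≤ 1 := by
  refine norm_proj_le ?_ ?_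
  · rw [star_sum]
    exact Finset.sum_congr rfl fun a _ => he.star a a
  · rw [Finset.sum_mul]
    refine Finset.sum_congr rfl fun a _ => ?_
    rw [Finset.mul_sum, Finset.sum_eq_single a]
    · rw [he.mul, if_pos rfl]
    · intro b _ hb
      rw [he.mul, if_neg (Ne.symm hb)]
    · intro h; exact absurd (Finset.mem_univ a) h

theorem MatUnits.norm_col_le (j : K) (η : K → ℂ) (hη : ∀ k, η k = 1 ∨ η k = -1) :
    ‖∑ a, η a • e a j‖ ≤ Real.sqrt (Fintype.card K) := by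
  have h := star_sum_mul_sum (fun a => e a j) (e j j) (fun k l => by
    rw [he.star, he.mul]) η hη
  have h2 := CStarRing.norm_star_mul_self (x := ∑ a, η a • e a j)
  rw [h, norm_smul, Complex.norm_natCast] at h2
  refine Real.le_sqrt_of_sq_le ?_
  rw [sq, ← h2]
  calc (Fintype.card K : ℝ) * ‖e j j‖ ≤ (Fintype.card K : ℝ) * 1 := by
        gcongr; exact he.norm_diag_le j
    _ = _ := mul_one _

theorem MatUnits.norm_row_le (j : K) (η : K → ℂ) (hη : ∀ k, η k = 1 ∨ η k = -1) :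
    ‖∑ a, η a • e j a‖ ≤ Real.sqrt (Fintype.card K) := by
  have h := sum_mul_star_sum (fun a => e j a) (e j j) (fun k l => by
    rw [he.star, he.mul]) η hη
  have h2 := CStarRing.norm_self_mul_star (x := ∑ a, η a • e j a)
  rw [h, norm_smul, Complex.norm_natCast] at h2
  refine Real.le_sqrt_of_sq_le ?_
  rw [sq, ← h2]
  calc (Fintype.card K : ℝ) * ‖e j j‖ ≤ (Fintype.card K : ℝ) * 1 := by
        gcongr; exact he.norm_diag_le j
    _ = _ := mul_one _

end StarRing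

section Operators

variable {H : Type} [NormedAddCommGroup H] [InnerProductSpace ℂ H] [CompleteSpace H]
variable {K : Type} [Fintype K] [DecidableEq K] [AddCommGroup K]

theorem norm_sum_sq_of_orth (v : K → H) (hv : ∀ k l, k ≠ l → ⟪v k, v l⟫_ℂ = 0) :
    ‖∑ k, v k‖ ^ 2 = ∑ k, ‖v k‖ ^ 2 := by
  have h : ((‖∑ k, v k‖ ^ 2 : ℝ) : ℂ) = ((∑ k, ‖v k‖ ^ 2 : ℝ) : ℂ) := by
    have h1 := inner_self_eq_norm_sq_to_K (𝕜 := ℂ) (∑ k, v k)
    push_cast
    rw [show ((‖∑ k, v k‖ : ℂ)) ^ 2 = ⟪∑ k, v k, ∑ k, v k⟫_ℂ from h1.symm, sum_inner]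
    refine Finset.sum_congr rfl fun k _ => ?_
    rw [inner_sum, Finset.sum_eq_single k]
    · exact inner_self_eq_norm_sq_to_K (𝕜 := ℂ) (v k)
    · intro l _ hl
      exact hv k l (Ne.symm hl)
    · intro h; exact absurd (Finset.mem_univ k) h
  exact_mod_cast h

theorem norm_col_op_le {e : K → K → (H →L[ℂ] H)} (he : MatUnits e) (d : K → (H →L[ℂ] H))
    (hd : ∀ k l, k ≠ l → star (d k) * d l = 0) (hn : ∀ k, ‖d k‖ ≤ 1)
    (hc : ∀ k a b, d k * e a b = e a b * d k) (s : K) (ε : K → ℂ)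
    (hε : ∀ k, ε k = 1 ∨ ε k = -1) : ‖∑ k, ε k • (e 0 (s + k) * d k)‖ ≤ 1 := by
  refine ContinuousLinearMap.opNorm_le_bound _ zero_le_one fun ξ => ?_
  rw [one_mul]
  have e1 : (∑ k, ε k • (e 0 (s + k) * d k)) ξ = ∑ k, ε k • d k (e 0 (s + k) ξ) := by
    rw [sum_apply]
    refine Finset.sum_congr rfl fun k _ => ?_
    rw [← hc]
    rfl
  have e2 : ‖∑ k, ε k • d k (e 0 (s + k) ξ)‖ ^ 2 = ∑ k, ‖ε k • d k (e 0 (s + k) ξ)‖ ^ 2 := by
    refine norm_sum_sq_of_orth _ fun k l hkl => ?_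
    rw [inner_smul_left, inner_smul_right, ← ContinuousLinearMap.adjoint_inner_right,
      ← ContinuousLinearMap.star_eq_adjoint]
    have := hd k l hkl
    have h3 : star (d k) (d l (e 0 (s + l) ξ)) = 0 := by
      change (star (d k) * d l) (e 0 (s + l) ξ) = 0
      rw [this]; rfl
    rw [h3, inner_zero_right, mul_zero, mul_zero]
  have e3 : ∀ k, ‖ε k • d k (e 0 (s + k) ξ)‖ ^ 2 ≤ ‖e 0 (s + k) ξ‖ ^ 2 := by
    intro k
    have h4 : ‖ε k‖ = 1 := by rcases hε k with h | h <;> rw [h] <;> simp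
    rw [norm_smul, h4, one_mul]
    have h5 : ‖d k (e 0 (s + k) ξ)‖ ≤ 1 * ‖e 0 (s + k) ξ‖ :=
      ((d k).le_opNorm _).trans (by gcongr; exact hn k)
    rw [one_mul] at h5
    gcongr
  have e4 : ∑ k, ‖e 0 (s + k) ξ‖ ^ 2 = ∑ b, ‖e 0 b ξ‖ ^ 2 :=
    Equiv.sum_comp (Equiv.addLeft s) (fun b => ‖e 0 b ξ‖ ^ 2)
  have e5 := sum_norm_sq_le (fun b => e 0 b) ξ
  have e6 : (∑ b, star (e 0 b) * e 0 b) = ∑ b, e b b :=
    Finset.sum_congr rfl fun b _ => by rw [he.star, he.mul, if_pos rfl]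
  rw [e6] at e5
  have e7 : ‖∑ k, ε k • d k (e 0 (s + k) ξ)‖ ^ 2 ≤ ‖ξ‖ ^ 2 := by
    rw [e2]
    calc ∑ k, ‖ε k • d k (e 0 (s + k) ξ)‖ ^ 2 ≤ ∑ k, ‖e 0 (s + k) ξ‖ ^ 2 :=
          Finset.sum_le_sum fun k _ => e3 k
      _ = ∑ b, ‖e 0 b ξ‖ ^ 2 := e4
      _ ≤ ‖∑ b, e b b‖ * ‖ξ‖ ^ 2 := e5
      _ ≤ 1 * ‖ξ‖ ^ 2 := by gcongr; exact he.norm_sum_le
      _ = ‖ξ‖ ^ 2 := one_mul _
  rw [e1]
  exact (sq_le_sq₀ (norm_nonneg _) (norm_nonneg _)).1 e7

end Operators

end Pool.Agent.Helper172.HD
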