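import Mathlib
import Pool.Agent.Helper172.HD.Main

set_option autoImplicit false

open scoped InnerProductSpace TensorProduct

namespace Pool.Agent.Helper172.HD

section Beta

variable {H : Type} [NormedAddCommGroup H] [InnerProductSpace ℂ H] [CompleteSpace H]
variable {A : VonNeumannAlgebra H}
variable {K : Type} [Fintype K]

/-- `β(T, z) = E(f_T)(1 ⊗ z)`. -/
noncomputable def beta (E : normalHDual A →L[ℂ] normalHDual A) (ω : K → H) :
    (H →L[ℂ] H) →ₗ[ℂ] VN A →ₗ[ℂ] ℂ :=
  LinearMap.mk₂ ℂ (fun T z => ((E (avgForm A ω T) : normalHDual A) : HDual (VN A)) (tmul 1 z))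
    (fun T T' z => by rw [map_add, map_add, Submodule.coe_add, HDual.add_apply])
    (fun c T z => by rw [map_smul, map_smul, Submodule.coe_smul, HDual.smul_apply])
    (fun T z z' => by rw [tmul_add, map_add])
    (fun c T z => by rw [tmul_smul, map_smul])

theorem beta_apply (E : normalHDual A →L[ℂ] normalHDual A) (ω : K → H) (T : H →L[ℂ] H)
    (z : VN A) : beta E ω T z =
      ((E (avgForm A ω T) : normalHDual A) : HDual (VN A)) (tmul 1 z) := rfl

theorem central_apply {f : normalHDual A}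
    (hf : ∀ c, (normalHDualBimodule A).l c f = (normalHDualBimodule A).r c f) (x y : VN A) :
    (f : HDual (VN A)) (tmul x y) = (f : HDual (VN A)) (tmul 1 (y * x)) := by
  have h := congrArg (fun g : normalHDual A => (g : HDual (VN A)) (tmul 1 y)) (hf x)
  change (f : HDual (VN A)) (tmul 1 (y * x)) = (f : HDual (VN A)) (tmul (x * 1) y) at h
  rw [mul_one] at h
  exact h.symm

theorem norm_sum_beta_le (E : normalHDual A →L[ℂ] normalHDual A)
    (hE : ∀ f c, (normalHDualBimodule A).l c (E f) = (normalHDualBimodule A).r c (E f))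
    (ω : K → H) (hω : ∀ i, ‖ω i‖ = 1) (T : H →L[ℂ] H) {ι : Type*} [Fintype ι]
    (x y : ι → VN A) : ‖∑ j, beta E ω T (y j * x j)‖ ≤ ‖E‖ * ‖T‖ *
      (Real.sqrt ‖∑ j, x j * star (x j)‖ * Real.sqrt ‖∑ j, star (y j) * y j‖) := by
  have e1 : ∑ j, beta E ω T (y j * x j) =
      ((E (avgForm A ω T) : normalHDual A) : HDual (VN A)) (∑ j, tmul (x j) (y j)) := by
    rw [map_sum]
    exact Finset.sum_congr rfl fun j _ => (central_apply (hE (avgForm A ω T)) (x j) (y j)).symm
  rw [e1]
  calc _ ≤ ‖((E (avgForm A ω T) : normalHDual A) : HDual (VN A))‖ * ‖∑ j, tmul (x j) (y j)‖ :=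
        HDual.le_opNorm _ _
    _ ≤ (‖E‖ * ‖T‖) *
        (Real.sqrt ‖∑ j, x j * star (x j)‖ * Real.sqrt ‖∑ j, star (y j) * y j‖) := by
      refine mul_le_mul ?_ (norm_sum_tmul_le x y) (norm_nonneg _) (by positivity)
      calc ‖E (avgForm A ω T)‖ ≤ ‖E‖ * ‖avgForm A ω T‖ := E.le_opNorm _
        _ ≤ ‖E‖ * ‖T‖ := by gcongr; exact norm_avgForm_le A ω hω T

theorem beta_of_mem (E : normalHDual A →L[ℂ] normalHDual A)
    (hE : ∀ f, (∀ c, (normalHDualBimodule A).l c f = (normalHDualBimodule A).r c f) → E f = f)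
    (ω : K → H) (htr : ∀ x y : VN A, avgState ω (x.op * y.op) = avgState ω (y.op * x.op))
    (h z : VN A) : beta E ω h.op z = avgState ω (h.op * z.op) := by
  rw [beta_apply, hE, avgForm_tmul, VN.op_one, one_mul]
  intro c
  apply Subtype.ext
  apply hdual_ext
  intro x y
  change (avgForm A ω h.op : HDual (VN A)) (tmul x (y * c)) =
    (avgForm A ω h.op : HDual (VN A)) (tmul (c * x) y)
  rw [avgForm_tmul, avgForm_tmul]
  have := htr (x * h * y) c
  simpa only [VN.op_mul, mul_assoc] using this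

end Beta

end Pool.Agent.Helper172.HD
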