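import Mathlib
set_option autoImplicit false

open scoped InnerProductSpace TensorProduct ENNReal

namespace Pool.Agent.Helper172.HDS

/-- A Banach `𝔄`-bimodule structure on `X` (unital, with contractive actions): `l a x = a·x`,
`r b x = x·b`. -/
structure BanachBimodule (𝔄 X : Type) [NormedRing 𝔄] [NormedAlgebra ℂ 𝔄]
    [NormedAddCommGroup X] [NormedSpace ℂ X] where
  l : 𝔄 → X → X
  r : 𝔄 → X → X
  l_add : ∀ a x y, l a (x + y) = l a x + l a y
  l_smul : ∀ a (c : ℂ) x, l a (c • x) = c • l a x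
  add_l : ∀ a b x, l (a + b) x = l a x + l b x
  smul_l : ∀ (c : ℂ) a x, l (c • a) x = c • l a x
  r_add : ∀ a x y, r a (x + y) = r a x + r a y
  r_smul : ∀ a (c : ℂ) x, r a (c • x) = c • r a x
  add_r : ∀ a b x, r (a + b) x = r a x + r b x
  smul_r : ∀ (c : ℂ) a x, r (c • a) x = c • r a x
  norm_l_le : ∀ a x, ‖l a x‖ ≤ ‖a‖ * ‖x‖
  norm_r_le : ∀ b x, ‖r b x‖ ≤ ‖b‖ * ‖x‖
  one_l : ∀ x, l 1 x = x
  one_r : ∀ x, r 1 x = x
  mul_l : ∀ a b x, l (a * b) x = l a (l b x)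
  mul_r : ∀ a b x, r (a * b) x = r b (r a x)
  comm : ∀ a b x, l a (r b x) = r b (l a x)

variable {𝔄 : Type} [NormedRing 𝔄] [NormedAlgebra ℂ 𝔄]

/-- The bounded linear map `σ : M → N` is a morphism of bimodules. -/
def IsMorphism {X Y : Type} [NormedAddCommGroup X] [NormedSpace ℂ X]
    [NormedAddCommGroup Y] [NormedSpace ℂ Y] (M : BanachBimodule 𝔄 X)
    (N : BanachBimodule 𝔄 Y) (σ : X →L[ℂ] Y) : Prop :=
  (∀ a x, σ (M.l a x) = N.l a (σ x)) ∧ ∀ b x, σ (M.r b x) = N.r b (σ x)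

/-- Relative injectivity: morphisms into `X` extend along every morphism `σ : Y → Z` of Banach
bimodules which has a bounded linear left inverse `ρ`. -/
def IsInjective {X : Type} [NormedAddCommGroup X] [NormedSpace ℂ X]
    (MX : BanachBimodule 𝔄 X) : Prop :=
  ∀ (Y Z : Type) [NormedAddCommGroup Y] [NormedSpace ℂ Y] [CompleteSpace Y]
    [NormedAddCommGroup Z] [NormedSpace ℂ Z] [CompleteSpace Z]
    (MY : BanachBimodule 𝔄 Y) (MZ : BanachBimodule 𝔄 Z)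
    (σ : Y →L[ℂ] Z) (ρ : Z →L[ℂ] Y) (φ : Y →L[ℂ] X),
    IsMorphism MY MZ σ → (∀ y, ρ (σ y) = y) → IsMorphism MY MX φ →
    ∃ ψ : Z →L[ℂ] X, IsMorphism MZ MX ψ ∧ ∀ y, ψ (σ y) = φ y

/-- The Haagerup norm of `u ∈ 𝔄 ⊗ 𝔄`: the infimum of `‖∑ xⱼ xⱼ*‖^{1/2} ‖∑ yⱼ* yⱼ‖^{1/2}` over
all representations `u = ∑ xⱼ ⊗ yⱼ`. -/
noncomputable def hnorm [StarRing 𝔄] (u : 𝔄 ⊗[ℂ] 𝔄) : ℝ :=
  sInf {t | ∃ (n : ℕ) (x y : Fin n → 𝔄), u = ∑ j, x j ⊗ₜ[ℂ] y j ∧
    t = Real.sqrt ‖∑ j, x j * star (x j)‖ * Real.sqrt ‖∑ j, star (y j) * y j‖}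

/-- For `𝔄 = A` and `τ` the weak* topology: `f` belongs to `(A × A)^h_*`, that is, `f` is a
linear functional on `𝔄 ⊗ 𝔄`, bounded for the Haagerup norm, and such that
`f(x ⊗ ·)` and `f(· ⊗ y)` are continuous for the topology `τ` of `𝔄`, for all `x`, `y`. -/
def InHaagerupDual [StarRing 𝔄] (τ : TopologicalSpace 𝔄) (f : 𝔄 ⊗[ℂ] 𝔄 → ℂ) : Prop :=
  IsLinearMap ℂ f ∧ (∃ C : ℝ, ∀ u, ‖f u‖ ≤ C * hnorm u) ∧
    (∀ x, @Continuous _ _ τ _ fun y => f (x ⊗ₜ[ℂ] y)) ∧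
    ∀ y, @Continuous _ _ τ _ fun x => f (x ⊗ₜ[ℂ] y)

/-- The Banach bimodule `J` is, by means of `ι`, the bimodule of the functionals `f` on `𝔄 ⊗ 𝔄`
with `InHaagerupDual τ f`, with the norm of the dual of `(𝔄 ⊗ 𝔄, hnorm)` and with the actions
`(a·f)(x ⊗ y) = f(x ⊗ ya)` and `(f·b)(x ⊗ y) = f(bx ⊗ y)`. -/
structure IsHaagerupDual [StarRing 𝔄] (τ : TopologicalSpace 𝔄) {J : Type} [NormedAddCommGroup J]
    [NormedSpace ℂ J] (M : BanachBimodule 𝔄 J) (ι : J → 𝔄 ⊗[ℂ] 𝔄 → ℂ) : Prop where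
  map_add : ∀ i j u, ι (i + j) u = ι i u + ι j u
  map_smul : ∀ (c : ℂ) j u, ι (c • j) u = c * ι j u
  injective : Function.Injective ι
  mem_range : ∀ f, (∃ j, ι j = f) ↔ InHaagerupDual τ f
  norm_eq : ∀ j, ‖j‖ = sInf {C : ℝ | 0 ≤ C ∧ ∀ u, ‖ι j u‖ ≤ C * hnorm u}
  l_apply : ∀ a j x y, ι (M.l a j) (x ⊗ₜ[ℂ] y) = ι j (x ⊗ₜ[ℂ] (y * a))
  r_apply : ∀ b j x y, ι (M.r b j) (x ⊗ₜ[ℂ] y) = ι j ((b * x) ⊗ₜ[ℂ] y)

variable {H : Type} [NormedAddCommGroup H] [InnerProductSpace ℂ H] [CompleteSpace H]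

/-- The von Neumann algebra `A`, as a normed *-algebra (a subtype of `H →L[ℂ] H`, with the
operations and the norm of `H →L[ℂ] H`). -/
def VN (A : VonNeumannAlgebra H) : Type := ↥A.toStarSubalgebra

variable (A : VonNeumannAlgebra H)

noncomputable instance VN.normedRing : NormedRing (VN A) :=
  (inferInstance : NormedRing ↥A.toStarSubalgebra)

noncomputable instance VN.normedAlgebra : NormedAlgebra ℂ (VN A) :=
  (inferInstance : NormedAlgebra ℂ ↥A.toStarSubalgebra)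

noncomputable instance VN.starRing : StarRing (VN A) :=
  (inferInstance : StarRing ↥A.toStarSubalgebra)

/-- The predual `A_*` of `A`: the functionals on `A` which are norm limits of finite sums of
vector functionals `x ↦ ⟨xξ, η⟩` (such a `φ` is automatically linear and bounded; the inner
product of mathlib is linear in the second variable). -/
def InPredual (φ : VN A → ℂ) : Prop :=
  ∀ ε > 0, ∃ (n : ℕ) (ξ η : Fin n → H), ∀ x : VN A, ‖φ x - ∑ i, ⟪η i, x.1 (ξ i)⟫_ℂ‖ ≤ ε * ‖x‖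

/-- The weak* topology `σ(A, A_*)` of `A`. -/
noncomputable def weakStar : TopologicalSpace (VN A) :=
  ⨅ φ : {φ : VN A → ℂ // InPredual A φ}, TopologicalSpace.induced φ.1 inferInstance

/-- The `A`-bimodule `(A × A)^h_*` is injective: every Banach bimodule `J` which is identified
with it by some `ι` is injective (two such `J` are isometrically isomorphic bimodules). -/
def HaagerupDualInjective (A : VonNeumannAlgebra H) : Prop :=
  ∀ (J : Type) [NormedAddCommGroup J] [NormedSpace ℂ J] [CompleteSpace J]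
    (M : BanachBimodule (VN A) J) (ι : J → VN A ⊗[ℂ] VN A → ℂ),
    IsHaagerupDual (weakStar A) M ι → IsInjective M

end Pool.Agent.Helper172.HDS
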