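import Mathlib
import Pool.Agent.Helper172.HD.Beta

set_option autoImplicit false

open scoped InnerProductSpace TensorProduct

namespace Pool.Agent.Helper172.HD

section Final

variable {H : Type} [NormedAddCommGroup H] [InnerProductSpace ℂ H] [CompleteSpace H]
variable {A : VonNeumannAlgebra H}
variable {K : Type} [Fintype K] [DecidableEq K]

theorem MatUnits.op {e : K → K → VN A} (he : MatUnits e) : MatUnits fun a b => (e a b).op where
  mul a b c d := by
    rw [← VN.op_mul, he.mul]
    split_ifs <;> rfl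
  star a b := by rw [← VN.op_star, he.star]

theorem test_le (E : normalHDual A →L[ℂ] normalHDual A)
    (hE : ∀ f c, (normalHDualBimodule A).l c (E f) = (normalHDualBimodule A).r c (E f))
    (ω : K → H) (hω : ∀ i, ‖ω i‖ = 1) {e : K → K → VN A} (he : MatUnits e) [Nonempty K]
    (T : H →L[ℂ] H) (Z : VN A) (x y : K → VN A) (hxy : ∀ j, y j * x j = Z)
    (hx : ∀ j, x j * star (x j) = (Fintype.card K : ℂ) • e j j)
    (hy : ∀ j, star (y j) * y j = (Fintype.card K : ℂ) • e j j) :
    ‖beta E ω T Z‖ ≤ ‖E‖ * ‖T‖ := by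
  have h := norm_sum_beta_le E hE ω hω T x y
  have hn : (0 : ℝ) < Fintype.card K := by exact_mod_cast Fintype.card_pos
  have h1 : ‖∑ j, x j * star (x j)‖ ≤ Fintype.card K := by
    rw [Finset.sum_congr rfl fun j _ => hx j, ← Finset.smul_sum, norm_smul, Complex.norm_natCast]
    calc (Fintype.card K : ℝ) * ‖∑ j, e j j‖ ≤ (Fintype.card K : ℝ) * 1 := by
          gcongr; exact he.norm_sum_le
      _ = _ := mul_one _
  have h2 : ‖∑ j, star (y j) * y j‖ ≤ Fintype.card K := by
    rw [Finset.sum_congr rfl fun j _ => hy j, ← Finset.smul_sum, norm_smul, Complex.norm_natCast]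
    calc (Fintype.card K : ℝ) * ‖∑ j, e j j‖ ≤ (Fintype.card K : ℝ) * 1 := by
          gcongr; exact he.norm_sum_le
      _ = _ := mul_one _
  have h3 : Real.sqrt ‖∑ j, x j * star (x j)‖ * Real.sqrt ‖∑ j, star (y j) * y j‖ ≤
      Fintype.card K := by
    calc _ ≤ Real.sqrt (Fintype.card K) * Real.sqrt (Fintype.card K) :=
          mul_le_mul (Real.sqrt_le_sqrt h1) (Real.sqrt_le_sqrt h2) (Real.sqrt_nonneg _)
            (Real.sqrt_nonneg _)
      _ = _ := Real.mul_self_sqrt hn.le
  rw [Finset.sum_congr rfl fun j _ => by rw [hxy j], Finset.sum_const, Finset.card_univ,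
    nsmul_eq_mul, norm_mul, Complex.norm_natCast] at h
  have h4 : (Fintype.card K : ℝ) * ‖beta E ω T Z‖ ≤ (Fintype.card K : ℝ) * (‖E‖ * ‖T‖) := by
    calc _ ≤ _ := h
      _ ≤ ‖E‖ * ‖T‖ * (Fintype.card K : ℝ) := by gcongr
      _ = _ := mul_comm _ _
  exact le_of_mul_le_mul_left h4 hn

variable [AddCommGroup K]

theorem bound_c (E : normalHDual A →L[ℂ] normalHDual A)
    (hE : ∀ f c, (normalHDualBimodule A).l c (E f) = (normalHDualBimodule A).r c (E f))
    (ω : K → H) (hω : ∀ i, ‖ω i‖ = 1) {e : K → K → VN A} (he : MatUnits e)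
    (g : K → VN A) (hg1 : ∀ k, g k * star (g k) = 1)
    (hge : ∀ k a b, g k * e a b = e a b * g k)
    (hge' : ∀ k a b, star (g k) * e a b = e a b * star (g k))
    (c : K → (H →L[ℂ] H)) (hc : ∀ k l, k ≠ l → star (c k) * c l = 0) (hcn : ∀ k, ‖c k‖ ≤ 1)
    (hce : ∀ k a b, c k * (e a b).op = (e a b).op * c k) (s : K) :
    ‖∑ a, ∑ k, beta E ω ((e a (s + k)).op * c k) (e (s + k) a * star (g k))‖ ≤
      ‖E‖ * Real.sqrt (Fintype.card K) := by
  refine sign_avg₂ (beta E ω) (fun a k => (e a (s + k)).op * c k)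
    (fun a k => e (s + k) a * star (g k)) _ fun η ε hη hε => ?_
  have e1 : (∑ a, η a • ∑ k, ε k • ((e a (s + k)).op * c k)) =
      (∑ a, η a • (e a 0).op) * (∑ k, ε k • ((e 0 (s + k)).op * c k)) := by
    rw [Finset.sum_mul]
    refine Finset.sum_congr rfl fun a _ => ?_
    rw [smul_mul_assoc, Finset.mul_sum]
    congr 1
    refine Finset.sum_congr rfl fun k _ => ?_
    rw [mul_smul_comm, ← mul_assoc, ← VN.op_mul, he.mul, if_pos rfl]
  have hT : ‖∑ a, η a • ∑ k, ε k • ((e a (s + k)).op * c k)‖ ≤ Real.sqrt (Fintype.card K) := by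
    rw [e1]
    refine (norm_mul_le _ _).trans ?_
    calc _ ≤ Real.sqrt (Fintype.card K) * 1 :=
          mul_le_mul (he.op.norm_col_le 0 η hη) (norm_col_op_le he.op c hc hcn hce s ε hε)
            (norm_nonneg _) (Real.sqrt_nonneg _)
      _ = _ := mul_one _
  refine (test_le E hE ω hω he _ _ (fun j => ∑ a, η a • e j a)
    (fun j => ∑ k, ε k • (e (s + k) j * star (g k))) (fun j => ?_) (fun j => ?_)
    (fun j => ?_)).trans (mul_le_mul_of_nonneg_left hT (norm_nonneg E))
  · rw [Finset.mul_sum]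
    refine Finset.sum_congr rfl fun a _ => ?_
    rw [mul_smul_comm, Finset.sum_mul]
    congr 1
    refine Finset.sum_congr rfl fun k _ => ?_
    rw [smul_mul_assoc, mul_assoc, hge', ← mul_assoc, he.mul, if_pos rfl]
  · exact sum_mul_star_sum (fun a => e j a) (e j j) (fun k l => by rw [he.star, he.mul]) η hη
  · refine star_sum_mul_sum (fun k => e (s + k) j * star (g k)) (e j j) (fun k l => ?_) ε hε
    rw [star_mul, star_star, he.star]
    have : g k * e j (s + k) * (e (s + l) j * star (g l)) =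
        g k * (e j (s + k) * e (s + l) j) * star (g l) := by simp only [mul_assoc]
    rw [this, he.mul]
    by_cases hkl : k = l
    · subst hkl
      rw [if_pos rfl, if_pos rfl, hge, mul_assoc, hg1, mul_one]
    · rw [if_neg hkl, if_neg (fun h => hkl (add_left_cancel h)), mul_zero, zero_mul]

theorem bound_r (E : normalHDual A →L[ℂ] normalHDual A)
    (hE : ∀ f c, (normalHDualBimodule A).l c (E f) = (normalHDualBimodule A).r c (E f))
    (ω : K → H) (hω : ∀ i, ‖ω i‖ = 1) {e : K → K → VN A} (he : MatUnits e)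
    (g : K → VN A) (hg2 : ∀ k, star (g k) * g k = 1)
    (hge : ∀ k a b, g k * e a b = e a b * g k)
    (hge' : ∀ k a b, star (g k) * e a b = e a b * star (g k))
    (r : K → (H →L[ℂ] H)) (hr : ∀ k l, k ≠ l → r k * star (r l) = 0) (hrn : ∀ k, ‖r k‖ ≤ 1)
    (hre : ∀ k a b, r k * (e a b).op = (e a b).op * r k) (s : K) :
    ‖∑ b, ∑ k, beta E ω (r k * (e (s + k) b).op) (e b (s + k) * star (g k))‖ ≤
      ‖E‖ * Real.sqrt (Fintype.card K) := by
  refine sign_avg₂ (beta E ω) (fun b k => r k * (e (s + k) b).op)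
    (fun b k => e b (s + k) * star (g k)) _ fun η ε hη hε => ?_
  have e1 : (∑ b, η b • ∑ k, ε k • (r k * (e (s + k) b).op)) =
      (∑ k, ε k • (r k * (e (s + k) 0).op)) * (∑ b, η b • (e 0 b).op) := by
    rw [Finset.mul_sum]
    refine Finset.sum_congr rfl fun a _ => ?_
    rw [mul_smul_comm, Finset.sum_mul]
    congr 1
    refine Finset.sum_congr rfl fun k _ => ?_
    rw [smul_mul_assoc, mul_assoc, ← VN.op_mul, he.mul, if_pos rfl]
  have e2 : ‖∑ k, ε k • (r k * (e (s + k) 0).op)‖ ≤ 1 := by
    have h := norm_col_op_le he.op (fun k => star (r k))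
      (fun k l hkl => by rw [star_star]; exact hr k l hkl)
      (fun k => by rw [norm_star]; exact hrn k)
      (fun k a b => by
        have := congrArg star (hre k b a)
        rw [star_mul, star_mul, ← VN.op_star, he.star] at this
        exact this.symm) s ε hε
    have h2 : star (∑ k, ε k • (r k * (e (s + k) 0).op)) =
        ∑ k, ε k • ((e 0 (s + k)).op * star (r k)) := by
      rw [star_sum]
      refine Finset.sum_congr rfl fun k _ => ?_
      rw [star_smul, sign_star (hε k), star_mul, ← VN.op_star, he.star]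
    rw [← norm_star, h2]
    exact h
  have hT : ‖∑ b, η b • ∑ k, ε k • (r k * (e (s + k) b).op)‖ ≤ Real.sqrt (Fintype.card K) := by
    rw [e1]
    refine (norm_mul_le _ _).trans ?_
    calc _ ≤ 1 * Real.sqrt (Fintype.card K) :=
          mul_le_mul e2 (he.op.norm_row_le 0 η hη) (norm_nonneg _) zero_le_one
      _ = _ := one_mul _
  refine (test_le E hE ω hω he _ _ (fun j => ∑ k, ε k • (e j (s + k) * star (g k)))
    (fun j => ∑ b, η b • e b j) (fun j => ?_) (fun j => ?_)
    (fun j => ?_)).trans (mul_le_mul_of_nonneg_left hT (norm_nonneg E))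
  · rw [Finset.sum_mul]
    refine Finset.sum_congr rfl fun b _ => ?_
    rw [smul_mul_assoc, Finset.mul_sum]
    congr 1
    refine Finset.sum_congr rfl fun k _ => ?_
    rw [mul_smul_comm, ← mul_assoc, he.mul, if_pos rfl]
  · refine sum_mul_star_sum (fun k => e j (s + k) * star (g k)) (e j j) (fun k l => ?_) ε hε
    rw [star_mul, star_star, he.star]
    have : e j (s + k) * star (g k) * (g l * e (s + l) j) =
        (e j (s + k) * e (s + l) j) * (star (g k) * g l) := by
      rw [hge, mul_assoc, ← mul_assoc (star (g k)), hge']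
      simp only [mul_assoc]
    rw [this, he.mul]
    by_cases hkl : k = l
    · subst hkl
      rw [if_pos rfl, if_pos rfl, hg2, mul_one]
    · rw [if_neg hkl, if_neg (fun h => hkl (add_left_cancel h)), zero_mul]
  · exact star_sum_mul_sum (fun b => e b j) (e j j) (fun k l => by rw [he.star, he.mul]) η hη

theorem sqrt_card_le (E : normalHDual A →L[ℂ] normalHDual A)
    (hE : ∀ f c, (normalHDualBimodule A).l c (E f) = (normalHDualBimodule A).r c (E f))
    (hE' : ∀ f, (∀ c, (normalHDualBimodule A).l c f = (normalHDualBimodule A).r c f) → E f = f)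
    (ω : K → H) (hω : ∀ i, ‖ω i‖ = 1)
    (htr : ∀ x y : VN A, avgState ω (x.op * y.op) = avgState ω (y.op * x.op))
    {e : K → K → VN A} (he : MatUnits e) (htot : ∑ a, avgState ω (e a a).op = 1)
    (g : K → VN A) (hg1 : ∀ k, g k * star (g k) = 1) (hg2 : ∀ k, star (g k) * g k = 1)
    (hge : ∀ k a b, g k * e a b = e a b * g k)
    (c r : K → (H →L[ℂ] H)) (hcr : ∀ k, c k + r k = (g k).op)
    (hc : ∀ k l, k ≠ l → star (c k) * c l = 0) (hcn : ∀ k, ‖c k‖ ≤ 1)
    (hce : ∀ k a b, c k * (e a b).op = (e a b).op * c k)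
    (hr : ∀ k l, k ≠ l → r k * star (r l) = 0) (hrn : ∀ k, ‖r k‖ ≤ 1)
    (hre : ∀ k a b, r k * (e a b).op = (e a b).op * r k) :
    Real.sqrt (Fintype.card K) ≤ 2 * ‖E‖ := by
  have hn : (0 : ℝ) < Fintype.card K := by exact_mod_cast Fintype.card_pos
  have hge' : ∀ k a b, star (g k) * e a b = e a b * star (g k) := by
    intro k a b
    have := congrArg star (hge k b a)
    rw [star_mul, star_mul, he.star] at this
    exact this.symm
  set n : ℝ := ((Fintype.card K : ℕ) : ℝ) with hndef
  -- the two sums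
  have hSc : ‖∑ a, ∑ k, ∑ b, beta E ω ((e a b).op * c k) (e b a * star (g k))‖ ≤
      n * (‖E‖ * Real.sqrt n) := by
    have e1 : (∑ a, ∑ k, ∑ b, beta E ω ((e a b).op * c k) (e b a * star (g k))) =
        ∑ s, ∑ a, ∑ k, beta E ω ((e a (s + k)).op * c k) (e (s + k) a * star (g k)) := by
      rw [Finset.sum_comm (s := Finset.univ) (t := Finset.univ) (f := fun s a =>
        ∑ k, beta E ω ((e a (s + k)).op * c k) (e (s + k) a * star (g k)))]
      refine Finset.sum_congr rfl fun a _ => ?_
      rw [Finset.sum_comm (s := Finset.univ) (t := Finset.univ) (f := fun s k =>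
        beta E ω ((e a (s + k)).op * c k) (e (s + k) a * star (g k)))]
      refine Finset.sum_congr rfl fun k _ => ?_
      exact (Equiv.sum_comp (Equiv.addRight k) (fun b =>
        beta E ω ((e a b).op * c k) (e b a * star (g k)))).symm
    rw [e1]
    refine (norm_sum_le_of_le _ fun s _ =>
      bound_c E hE ω hω he g hg1 hge hge' c hc hcn hce s).trans_eq ?_
    rw [Finset.sum_const, Finset.card_univ, nsmul_eq_mul]
  have hSr : ‖∑ a, ∑ k, ∑ b, beta E ω ((e a b).op * r k) (e b a * star (g k))‖ ≤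
      n * (‖E‖ * Real.sqrt n) := by
    have e1 : (∑ a, ∑ k, ∑ b, beta E ω ((e a b).op * r k) (e b a * star (g k))) =
        ∑ s, ∑ b, ∑ k, beta E ω (r k * (e (s + k) b).op) (e b (s + k) * star (g k)) := by
      have e2 : (∑ s, ∑ b, ∑ k, beta E ω (r k * (e (s + k) b).op) (e b (s + k) * star (g k))) =
          ∑ b, ∑ k, ∑ a, beta E ω (r k * (e a b).op) (e b a * star (g k)) := by
        rw [Finset.sum_comm (s := Finset.univ) (t := Finset.univ) (f := fun s b =>
          ∑ k, beta E ω (r k * (e (s + k) b).op) (e b (s + k) * star (g k)))]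
        refine Finset.sum_congr rfl fun b _ => ?_
        rw [Finset.sum_comm (s := Finset.univ) (t := Finset.univ) (f := fun s k =>
          beta E ω (r k * (e (s + k) b).op) (e b (s + k) * star (g k)))]
        refine Finset.sum_congr rfl fun k _ => ?_
        exact Equiv.sum_comp (Equiv.addRight k) (fun a =>
          beta E ω (r k * (e a b).op) (e b a * star (g k)))
      rw [e2]
      have e3 : ∀ a k b, beta E ω ((e a b).op * r k) (e b a * star (g k)) =
          beta E ω (r k * (e a b).op) (e b a * star (g k)) := fun a k b => by rw [hre]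
      simp only [e3]
      -- ∑ a, ∑ k, ∑ b = ∑ b, ∑ k, ∑ a
      rw [Finset.sum_comm]
      rw [Finset.sum_congr rfl fun k _ => Finset.sum_comm]
      rw [Finset.sum_comm]
    rw [e1]
    refine (norm_sum_le_of_le _ fun s _ =>
      bound_r E hE ω hω he g hg2 hge hge' r hr hrn hre s).trans_eq ?_
    rw [Finset.sum_const, Finset.card_univ, nsmul_eq_mul]
  have htotal : (∑ a, ∑ k, ∑ b, beta E ω ((e a b).op * c k) (e b a * star (g k))) +
      (∑ a, ∑ k, ∑ b, beta E ω ((e a b).op * r k) (e b a * star (g k))) = (n : ℂ) * n := by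
    have e1 : ∀ a k b, beta E ω ((e a b).op * c k) (e b a * star (g k)) +
        beta E ω ((e a b).op * r k) (e b a * star (g k)) = avgState ω (e a a).op := by
      intro a k b
      rw [← LinearMap.add_apply, ← map_add, ← mul_add, hcr, ← VN.op_mul,
        beta_of_mem E hE' ω htr, ← VN.op_mul]
      congr 2
      calc e a b * g k * (e b a * star (g k)) = e a b * (g k * e b a) * star (g k) := by
            simp only [mul_assoc]
        _ = (e a b * e b a) * (g k * star (g k)) := by rw [hge]; simp only [mul_assoc]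
        _ = e a a := by rw [he.mul, if_pos rfl, hg1, mul_one]
    simp only [← Finset.sum_add_distrib, e1, Finset.sum_const, Finset.card_univ, nsmul_eq_mul]
    rw [← Finset.mul_sum, ← Finset.mul_sum, htot, mul_one]
    simp [hndef]
  have h1 : n * n ≤ n * (‖E‖ * Real.sqrt n) + n * (‖E‖ * Real.sqrt n) := by
    have h2 : ‖(n : ℂ) * n‖ = n * n := by
      rw [norm_mul, Complex.norm_real, Real.norm_eq_abs, abs_of_pos hn]
    rw [← h2, ← htotal]
    exact (norm_add_le _ _).trans (add_le_add hSc hSr)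
  have h3 : n ≤ 2 * ‖E‖ * Real.sqrt n := by
    have : n * n ≤ n * (2 * ‖E‖ * Real.sqrt n) := by linarith
    exact le_of_mul_le_mul_left this hn
  have h4 : 0 < Real.sqrt n := Real.sqrt_pos.2 hn
  have h5 : Real.sqrt n * Real.sqrt n ≤ 2 * ‖E‖ * Real.sqrt n := by
    rw [Real.mul_self_sqrt hn.le]; exact h3
  exact le_of_mul_le_mul_right h5 h4

end Final

end Pool.Agent.Helper172.HD
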