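import Mathlib
import Pool.Agent.Helper172.HD.Final

set_option autoImplicit false

open scoped InnerProductSpace TensorProduct ENNReal

namespace Pool.Agent.Helper172.HD

section Pull

variable {I : Type}

/-- The Hilbert space `ℓ²(I)`. -/
abbrev L2 (I : Type) : Type := lp (fun _ : I => ℂ) 2

theorem exists_finset_sum_eq (f : I ≃. I) (φ : I → ℝ) (s : Finset I) :
    ∃ t : Finset I, (∀ i ∈ t, ∃ j ∈ s, f.symm j = some i) ∧
      ∑ j ∈ s, (f.symm j).elim 0 φ = ∑ i ∈ t, φ i := by
  classical
  induction s using Finset.induction_on with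
  | empty => exact ⟨∅, by simp, by simp⟩
  | insert a s ha ih =>
    obtain ⟨t, ht, hst⟩ := ih
    rcases hfa : f.symm a with _ | i
    · refine ⟨t, fun i hi => ?_, ?_⟩
      · obtain ⟨j, hj, hji⟩ := ht i hi
        exact ⟨j, Finset.mem_insert_of_mem hj, hji⟩
      · rw [Finset.sum_insert ha, hfa, hst]; simp
    · have hi : i ∉ t := by
        intro hi
        obtain ⟨j, hj, hji⟩ := ht i hi
        have : a = j := f.symm.inj (b := i) hfa hji
        exact ha (this ▸ hj)
      refine ⟨insert i t, fun i' hi' => ?_, ?_⟩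
      · rcases Finset.mem_insert.1 hi' with rfl | hi'
        · exact ⟨a, Finset.mem_insert_self _ _, hfa⟩
        · obtain ⟨j, hj, hji⟩ := ht i' hi'
          exact ⟨j, Finset.mem_insert_of_mem hj, hji⟩
      · rw [Finset.sum_insert ha, hfa, hst, Finset.sum_insert hi]; rfl

theorem sum_pull_le (f : I ≃. I) (ξ : L2 I) (s : Finset I) :
    ∑ j ∈ s, ‖(f.symm j).elim 0 ξ‖ ^ (2 : ℝ≥0∞).toReal ≤ ‖ξ‖ ^ (2 : ℝ≥0∞).toReal := by
  obtain ⟨t, -, ht⟩ := exists_finset_sum_eq f (fun i => ‖ξ i‖ ^ (2 : ℝ≥0∞).toReal) s
  have h1 : ∑ j ∈ s, ‖(f.symm j).elim 0 ξ‖ ^ (2 : ℝ≥0∞).toReal =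
      ∑ j ∈ s, (f.symm j).elim 0 (fun i => ‖ξ i‖ ^ (2 : ℝ≥0∞).toReal) := by
    refine Finset.sum_congr rfl fun j _ => ?_
    rcases f.symm j with _ | i <;> simp
  rw [h1, ht]
  exact lp.sum_rpow_le_norm_rpow (by simp) ξ t

/-- The contraction of `ℓ²(I)` given by an injection `f` of a subset of `I` into `I`:
`δ_i ↦ δ_{f(i)}` when `f` is defined at `i`, and `δ_i ↦ 0` otherwise. -/
noncomputable def pull (f : I ≃. I) : L2 I →L[ℂ] L2 I :=
  LinearMap.mkContinuous
    { toFun := fun ξ => ⟨fun j => (f.symm j).elim 0 ξ, memℓp_gen' (sum_pull_le f ξ)⟩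
      map_add' := fun ξ η => by
        ext j
        change (f.symm j).elim 0 (⇑(ξ + η)) = (f.symm j).elim 0 ξ + (f.symm j).elim 0 η
        rcases f.symm j with _ | i
        · exact (add_zero (0 : ℂ)).symm
        · rfl
      map_smul' := fun c ξ => by
        ext j
        change (f.symm j).elim 0 (⇑(c • ξ)) = c • (f.symm j).elim 0 ξ
        rcases f.symm j with _ | i
        · exact (smul_zero c).symm
        · rfl }
    1 (fun ξ => by
      rw [one_mul]
      exact lp.norm_le_of_forall_sum_le (by simp) (norm_nonneg ξ) (sum_pull_le f ξ))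

theorem pull_apply (f : I ≃. I) (ξ : L2 I) (j : I) : pull f ξ j = (f.symm j).elim 0 ξ := rfl

theorem norm_pull_le (f : I ≃. I) : ‖pull f‖ ≤ 1 :=
  LinearMap.mkContinuous_norm_le _ zero_le_one _

theorem pull_mul (f g : I ≃. I) : pull g * pull f = pull (f.trans g) := by
  ext ξ j
  change (g.symm j).elim 0 (pull f ξ) = ((f.trans g).symm j).elim 0 ξ
  have : (f.trans g).symm j = (g.symm j).bind f.symm := rfl
  rw [this]
  rcases g.symm j with _ | m
  · rfl
  · rfl

theorem pull_refl : pull (PEquiv.refl I) = 1 := by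
  ext ξ j
  rfl

variable [DecidableEq I]

/-- The basis vectors. -/
noncomputable def dl (i : I) : L2 I := lp.single 2 i 1

theorem dl_apply (i j : I) : dl i j = if j = i then 1 else 0 := by
  rw [dl, lp.single_apply]
  by_cases h : j = i
  · subst h; simp
  · simp [h]

theorem inner_dl (i : I) (ξ : L2 I) : ⟪dl i, ξ⟫_ℂ = ξ i := by
  rw [dl, lp.inner_single_left]
  simp

theorem norm_dl (i : I) : ‖dl i‖ = 1 := by
  rw [dl, lp.norm_single (by simp)]
  simp

theorem op_ext {S T : L2 I →L[ℂ] L2 I} (h : ∀ i, S (dl i) = T (dl i)) : S = T := by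
  ext ξ : 1
  have h1 := lp.hasSum_single (E := fun _ : I => ℂ) (p := 2) (by simp) ξ
  have h2 := h1.map S S.continuous
  have h3 := h1.map T T.continuous
  have h4 : (fun i => S (lp.single 2 i (ξ i))) = fun i => T (lp.single 2 i (ξ i)) := by
    funext i
    have : (lp.single 2 i (ξ i) : L2 I) = ξ i • dl i := by
      rw [dl, ← lp.single_smul]; simp
    rw [this, map_smul, map_smul, h]
  have h5 : (⇑S ∘ fun i => lp.single 2 i (ξ i)) = ⇑T ∘ fun i => lp.single 2 i (ξ i) := h4
  rw [h5] at h2
  exact h2.unique h3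

theorem pull_dl (f : I ≃. I) (i : I) : pull f (dl i) = (f i).elim 0 dl := by
  ext j
  rw [pull_apply]
  rcases hj : f.symm j with _ | m
  · rcases hi : f i with _ | l
    · rfl
    · change 0 = dl l j
      rw [dl_apply, if_neg]
      rintro rfl
      have := (f.mem_iff_mem (a := i) (b := j)).2 hi
      rw [hj] at this
      simp at this
  · change dl i m = _
    have h1 := (f.mem_iff_mem (a := m) (b := j)).1 hj
    rw [dl_apply]
    rcases hi : f i with _ | l
    · rw [if_neg]
      · rfl
      · rintro rfl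
        rw [hi] at h1
        simp at h1
    · change _ = dl l j
      rw [dl_apply]
      by_cases hm : m = i
      · subst hm
        rw [hi] at h1
        have : l = j := by simpa using h1
        rw [if_pos rfl, if_pos this.symm]
      · rw [if_neg hm, if_neg]
        rintro rfl
        exact hm (f.inj h1 hi)

theorem star_pull (f : I ≃. I) : star (pull f) = pull f.symm := by
  refine op_ext fun i => ?_
  ext j
  rw [← inner_dl j, ContinuousLinearMap.star_eq_adjoint, ContinuousLinearMap.adjoint_inner_right,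
    ← inner_conj_symm, inner_dl, pull_apply, pull_apply]
  have h : (f.symm i = some j) ↔ (f j = some i) := f.mem_iff_mem
  change _ = (f j).elim 0 (dl i)
  rcases h1 : f.symm i with _ | m
  · rcases h2 : f j with _ | l
    · simp
    · change _ = dl i l
      rw [dl_apply, if_neg]
      · simp
      · rintro rfl
        rw [h1, h2] at h
        simp at h
  · change (starRingEnd ℂ) (dl j m) = _
    rw [dl_apply]
    rcases h2 : f j with _ | l
    · rw [if_neg]
      · simp
      · rintro rfl
        rw [h1, h2] at h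
        simp at h
    · change _ = dl i l
      rw [dl_apply]
      rw [h1, h2] at h
      simp only [Option.some.injEq] at h
      by_cases hm : m = j
      · rw [if_pos hm, if_pos (h.1 hm)]; simp
      · rw [if_neg hm, if_neg (fun hl => hm (h.2 hl))]; simp

end Pull

end Pool.Agent.Helper172.HD
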