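import Mathlib
import Pool.Agent.Helper172.HD.Pull

set_option autoImplicit false

open scoped InnerProductSpace TensorProduct ENNReal

namespace Pool.Agent.Helper172.HD

section Example

/-- The free group on countably many generators. -/
abbrev F : Type := FreeGroup ℕ

/-- The disjoint union of the finite sets `Fin (N+1)`. -/
abbrev X : Type := Σ N : ℕ, Fin (N + 1)

/-- The index set of the Hilbert space `⊕_N (ℂ^(N+1) ⊗ ℓ²(F_∞))`. -/
abbrev Ix : Type := X × F

/-- Right translation by `h` on the `F` coordinate. -/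
def rt (h : F) : Ix ≃. Ix := (Equiv.prodCongr (Equiv.refl X) (Equiv.mulRight h)).toPEquiv

/-- Left translation by the generator `k`. -/
def lt (k : ℕ) : Ix ≃. Ix :=
  (Equiv.prodCongr (Equiv.refl X) (Equiv.mulLeft (FreeGroup.of k))).toPEquiv

/-- The identity of the `N`-th block. -/
def qb (N : ℕ) : Ix ≃. Ix := PEquiv.ofSet {i | i.1.1 = N}

/-- The identity of the set of the pairs `(x, w)` with `w ∈ S`. -/
noncomputable def ms (S : F → Prop) [DecidablePred S] : Ix ≃. Ix := PEquiv.ofSet {i | S i.2}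

/-- `((N, b), w) ↦ ((N, a), w)`. -/
def eb (N : ℕ) (a b : Fin (N + 1)) : Ix ≃. Ix where
  toFun i := if i.1 = ⟨N, b⟩ then some (⟨N, a⟩, i.2) else none
  invFun i := if i.1 = ⟨N, a⟩ then some (⟨N, b⟩, i.2) else none
  inv := by
    rintro ⟨x, w⟩ ⟨y, v⟩
    by_cases h1 : x = ⟨N, b⟩
    · by_cases h2 : y = ⟨N, a⟩
      · subst h1 h2
        simp [eq_comm]
      · simp [h2, Ne.symm h2]
    · by_cases h2 : y = ⟨N, a⟩
      · simp [h1, Ne.symm h1]
      · simp [h1, h2]

theorem rt_apply (h : F) (i : Ix) : rt h i = some (i.1, i.2 * h) := rfl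

theorem lt_apply (k : ℕ) (i : Ix) : lt k i = some (i.1, FreeGroup.of k * i.2) := rfl

theorem eb_apply (N : ℕ) (a b : Fin (N + 1)) (i : Ix) :
    eb N a b i = if i.1 = ⟨N, b⟩ then some (⟨N, a⟩, i.2) else none := rfl

theorem qb_apply (N : ℕ) (i : Ix) : qb N i = if i.1.1 = N then some i else none := rfl

theorem ms_apply (S : F → Prop) [DecidablePred S] (i : Ix) :
    ms S i = if S i.2 then some i else none := by
  unfold ms PEquiv.ofSet
  rfl

theorem pull_comm {I : Type} {f g : I ≃. I} (h : ∀ i, (f i).bind g = (g i).bind f) :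
    pull g * pull f = pull f * pull g := by
  rw [pull_mul, pull_mul]
  congr 1
  exact PEquiv.ext h

/-- The right translations and the projections on the blocks. -/
def gens : Set (L2 Ix →L[ℂ] L2 Ix) :=
  Set.range (fun h => pull (rt h)) ∪ Set.range (fun N => pull (qb N))

/-- The von Neumann algebra `∏_N M_{N+1}(L(F_∞))`, as the commutant of the right translations
and of the block projections. -/
noncomputable def exA : VonNeumannAlgebra (L2 Ix) where
  toStarSubalgebra := StarSubalgebra.centralizer ℂ gens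
  centralizer_centralizer' := by
    change Set.centralizer (Set.centralizer ((StarSubalgebra.centralizer ℂ gens :
      StarSubalgebra ℂ (L2 Ix →L[ℂ] L2 Ix)) : Set (L2 Ix →L[ℂ] L2 Ix))) =
      ((StarSubalgebra.centralizer ℂ gens :
      StarSubalgebra ℂ (L2 Ix →L[ℂ] L2 Ix)) : Set (L2 Ix →L[ℂ] L2 Ix))
    rw [StarSubalgebra.coe_centralizer, Set.centralizer_centralizer_centralizer]

theorem rt_symm (h : F) : (rt h).symm = rt h⁻¹ := by
  refine PEquiv.ext fun i => ?_
  rfl

theorem qb_symm (N : ℕ) : (qb N).symm = qb N := rfl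

theorem mem_exA {x : L2 Ix →L[ℂ] L2 Ix} :
    x ∈ exA ↔ (∀ h, pull (rt h) * x = x * pull (rt h)) ∧
      ∀ N, pull (qb N) * x = x * pull (qb N) := by
  have h0 : x ∈ exA ↔ x ∈ (StarSubalgebra.centralizer ℂ gens :
      StarSubalgebra ℂ (L2 Ix →L[ℂ] L2 Ix)) := Iff.rfl
  rw [h0, StarSubalgebra.mem_centralizer_iff]
  constructor
  · intro h
    exact ⟨fun g => (h _ (Or.inl ⟨g, rfl⟩)).1, fun N => (h _ (Or.inr ⟨N, rfl⟩)).1⟩
  · rintro ⟨h1, h2⟩ _ (⟨g, rfl⟩ | ⟨N, rfl⟩)
    · refine ⟨h1 g, ?_⟩
      simp only [star_pull, rt_symm]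
      exact h1 g⁻¹
    · refine ⟨h2 N, ?_⟩
      simp only [star_pull, qb_symm]
      exact h2 N

/-- The matrix coefficient. -/
noncomputable def kr (x : L2 Ix →L[ℂ] L2 Ix) (i j : Ix) : ℂ := x (dl j) i

theorem kr_rt {x : L2 Ix →L[ℂ] L2 Ix} (hx : x ∈ exA) (i j : Ix) (h : F) :
    kr x (i.1, i.2 * h) (j.1, j.2 * h) = kr x i j := by
  have h1 := congrArg (fun T : L2 Ix →L[ℂ] L2 Ix => T (dl j) (i.1, i.2 * h)) ((mem_exA.1 hx).1 h)
  change pull (rt h) (x (dl j)) (i.1, i.2 * h) = x (pull (rt h) (dl j)) (i.1, i.2 * h) at h1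
  rw [pull_dl, rt_apply, pull_apply, rt_symm, rt_apply] at h1
  simp only [mul_inv_cancel_right] at h1
  exact h1.symm

theorem kr_eq_zero {x : L2 Ix →L[ℂ] L2 Ix} (hx : x ∈ exA) (i j : Ix) (h : i.1.1 ≠ j.1.1) :
    kr x i j = 0 := by
  have h1 := congrArg (fun T : L2 Ix →L[ℂ] L2 Ix => T (dl j) i) ((mem_exA.1 hx).2 j.1.1)
  change pull (qb j.1.1) (x (dl j)) i = x (pull (qb j.1.1) (dl j)) i at h1
  rw [pull_dl, qb_apply, pull_apply, qb_symm, qb_apply, if_neg h, if_pos rfl] at h1
  exact h1.symm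

theorem kr_eq_inner (x : L2 Ix →L[ℂ] L2 Ix) (i j : Ix) : kr x i j = ⟪dl i, x (dl j)⟫_ℂ :=
  (inner_dl _ _).symm

theorem kr_star (x : L2 Ix →L[ℂ] L2 Ix) (i j : Ix) :
    (starRingEnd ℂ) (kr (star x) i j) = kr x j i := by
  rw [kr_eq_inner, kr_eq_inner, inner_conj_symm, ContinuousLinearMap.star_eq_adjoint,
    ContinuousLinearMap.adjoint_inner_left]

theorem inner_mul_eq (x y : L2 Ix →L[ℂ] L2 Ix) (i : Ix) :
    HasSum (fun m => kr x i m * kr y m i) ⟪dl i, (x * y) (dl i)⟫_ℂ := by
  have h1 : ⟪dl i, (x * y) (dl i)⟫_ℂ = ⟪star x (dl i), y (dl i)⟫_ℂ := by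
    rw [ContinuousLinearMap.star_eq_adjoint, ContinuousLinearMap.adjoint_inner_left]
    rfl
  rw [h1]
  have h2 := lp.hasSum_inner (𝕜 := ℂ) (star x (dl i)) (y (dl i))
  have h3 : (fun m => ⟪(star x (dl i)) m, (y (dl i)) m⟫_ℂ) = fun m => kr x i m * kr y m i := by
    funext m
    rw [← kr_star x]
    simp only [RCLike.inner_apply]
    rw [mul_comm]
    rfl
  rw [h3] at h2
  exact h2

/-- The vectors of the trace of the `N`-th block. -/
noncomputable def om (N : ℕ) (p : Fin (N + 1)) : L2 Ix := dl ((⟨N, p⟩, 1) : Ix)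

/-- The inclusion of the `N`-th block. -/
def inc (N : ℕ) (z : Fin (N + 1) × F) : Ix := (⟨N, z.1⟩, z.2)

theorem inc_injective (N : ℕ) : Function.Injective (inc N) := by
  rintro ⟨a, v⟩ ⟨b, w⟩ h
  simp only [inc, Prod.mk.injEq, Sigma.mk.injEq, heq_eq_eq, true_and] at h
  rw [h.1, h.2]

theorem block_sum {x y : L2 Ix →L[ℂ] L2 Ix} (hx : x ∈ exA) (N : ℕ) (p : Fin (N + 1)) :
    HasSum (fun z : Fin (N + 1) × F => kr x (⟨N, p⟩, 1) (inc N z) * kr y (inc N z) (⟨N, p⟩, 1))
      ⟪om N p, (x * y) (om N p)⟫_ℂ := by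
  have h := inner_mul_eq x y (⟨N, p⟩, 1)
  have h2 := (inc_injective N).hasSum_iff
    (f := fun m => kr x (⟨N, p⟩, 1) m * kr y m (⟨N, p⟩, 1))
    (a := ⟪om N p, (x * y) (om N p)⟫_ℂ) (fun m hm => by
      have : (N : ℕ) ≠ m.1.1 := by
        intro hN
        apply hm
        obtain ⟨⟨M, q⟩, w⟩ := m
        subst hN
        exact ⟨(q, w), rfl⟩
      change kr x (⟨N, p⟩, 1) m * kr y m (⟨N, p⟩, 1) = 0
      rw [kr_eq_zero hx _ _ this, zero_mul])
  exact h2.2 h

theorem block_sum' {x y : L2 Ix →L[ℂ] L2 Ix} (hx : x ∈ exA) (N : ℕ) (p : Fin (N + 1)) :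
    ⟪om N p, (x * y) (om N p)⟫_ℂ = ∑ q : Fin (N + 1), ∑' w : F,
      kr x (⟨N, p⟩, 1) (⟨N, q⟩, w) * kr y (⟨N, q⟩, w) (⟨N, p⟩, 1) := by
  have h := block_sum (y := y) hx N p
  rw [← h.tsum_eq, h.summable.tsum_prod, tsum_fintype]
  rfl

theorem trace_comm (N : ℕ) {x y : L2 Ix →L[ℂ] L2 Ix} (hx : x ∈ exA) (hy : y ∈ exA) :
    avgState (om N) (x * y) = avgState (om N) (y * x) := by
  unfold avgState
  congr 1
  simp only [block_sum' hx, block_sum' hy]
  rw [Finset.sum_comm]
  refine Finset.sum_congr rfl fun q _ => Finset.sum_congr rfl fun p _ => ?_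
  rw [← (Equiv.inv F).tsum_eq]
  refine tsum_congr fun w => ?_
  have h1 := kr_rt hx (⟨N, p⟩, 1) (⟨N, q⟩, w⁻¹) w
  have h2 := kr_rt hy (⟨N, q⟩, w⁻¹) (⟨N, p⟩, 1) w
  simp only [one_mul, inv_mul_cancel] at h1 h2
  simp only [Equiv.inv_apply]
  rw [← h1, ← h2, mul_comm]

theorem pull_lt_mem (k : ℕ) : pull (lt k) ∈ exA := by
  rw [mem_exA]
  constructor
  · intro h
    refine pull_comm fun i => ?_
    exact congrArg some (Prod.ext rfl (mul_assoc (FreeGroup.of k) i.2 h))
  · intro N
    refine pull_comm fun i => ?_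
    simp only [lt_apply, qb_apply, Option.bind_some]
    split_ifs <;> rfl

theorem pull_eb_mem (N : ℕ) (a b : Fin (N + 1)) : pull (eb N a b) ∈ exA := by
  rw [mem_exA]
  constructor
  · intro h
    refine pull_comm fun i => ?_
    simp only [rt_apply, eb_apply, Option.bind_some]
    split_ifs <;> rfl
  · intro M
    refine pull_comm fun i => ?_
    have e1 : (eb N a b i).bind (qb M) = if i.1 = ⟨N, b⟩ then qb M (⟨N, a⟩, i.2) else none := by
      rw [eb_apply]
      split_ifs <;> rfl
    have e2 : (qb M i).bind (eb N a b) = if i.1.1 = M then eb N a b i else none := by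
      rw [qb_apply]
      split_ifs <;> rfl
    rw [e1, e2, eb_apply, qb_apply]
    by_cases h1 : i.1 = ⟨N, b⟩
    · have h2 : i.1.1 = N := congrArg Sigma.fst h1
      rw [if_pos h1, if_pos h1, h2]
    · rw [if_neg h1, if_neg h1]
      split_ifs <;> rfl

theorem eb_symm (N : ℕ) (a b : Fin (N + 1)) : (eb N a b).symm = eb N b a := rfl

theorem pull_eb_mul (N : ℕ) (a b c d : Fin (N + 1)) :
    pull (eb N a b) * pull (eb N c d) = if b = c then pull (eb N a d) else 0 := by
  rw [pull_mul]
  refine op_ext fun i => ?_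
  rw [pull_dl]
  change (((eb N c d i).bind (eb N a b)).elim 0 dl) = _
  rw [eb_apply]
  by_cases h1 : i.1 = ⟨N, d⟩
  · rw [if_pos h1, Option.bind_some, eb_apply]
    by_cases h2 : b = c
    · subst h2
      rw [if_pos rfl, if_pos rfl, pull_dl, eb_apply, if_pos h1]
    · rw [if_neg, if_neg h2]
      · rfl
      · intro h
        simp only [Sigma.mk.injEq, heq_eq_eq, true_and] at h
        exact h2 h.symm
  · rw [if_neg h1]
    by_cases h2 : b = c
    · subst h2
      rw [if_pos rfl, pull_dl, eb_apply, if_neg h1]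
      rfl
    · rw [if_neg h2]
      rfl

/-- The words whose reduced form starts with the letter `k` (`s = true`) or its inverse
(`s = false`). -/
def starts (k : ℕ) (s : Bool) (w : F) : Prop := w.toWord.head? = some (k, s)

instance (k : ℕ) (s : Bool) : DecidablePred (starts k s) := fun w =>
  inferInstanceAs (Decidable (w.toWord.head? = some (k, s)))

theorem starts_iff (k : ℕ) (w : F) :
    starts k true (FreeGroup.of k * w) ↔ ¬ starts k false w := by
  have h1 : (FreeGroup.of k * w).toWord = FreeGroup.reduce ((k, true) :: w.toWord) := by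
    rw [FreeGroup.toWord_mul, FreeGroup.toWord_of]
    rfl
  have h2 := FreeGroup.reduce.cons (L := w.toWord) (k, true)
  have h3 : FreeGroup.IsReduced w.toWord := FreeGroup.IsReduced.of_reduce_eq (FreeGroup.reduce_toWord w)
  unfold starts
  rw [h1, h2, FreeGroup.reduce_toWord]
  rcases h : w.toWord with _ | ⟨⟨a, s⟩, L⟩
  · simp
  · rw [h] at h3
    simp only [List.head?_cons, Option.some.injEq, Prod.mk.injEq]
    by_cases h4 : k = a ∧ true = !s
    · rw [if_pos h4]
      obtain ⟨rfl, h5⟩ := h4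
      have hs : s = false := by simpa using h5.symm
      subst hs
      simp only [and_self, not_true_eq_false, iff_false]
      rcases L with _ | ⟨b, L⟩
      · simp
      · have h6 := (FreeGroup.isReduced_cons_cons.1 h3).1
        intro h7
        simp only [List.head?_cons, Option.some.injEq] at h7
        subst h7
        simp at h6
    · rw [if_neg h4]
      simp only [List.head?_cons, true_iff]
      rintro ⟨rfl, rfl⟩
      simp at h4

/-- The column part of the generator `k`. -/
noncomputable def cp (k : ℕ) : L2 Ix →L[ℂ] L2 Ix := pull (ms (starts k true)) * pull (lt k)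

/-- The row part of the generator `k`. -/
noncomputable def rp (k : ℕ) : L2 Ix →L[ℂ] L2 Ix := pull (lt k) * pull (ms (starts k false))

theorem cp_add_rp (k : ℕ) : cp k + rp k = pull (lt k) := by
  refine op_ext fun i => ?_
  rw [cp, rp, pull_mul, pull_mul]
  change pull _ (dl i) + pull _ (dl i) = pull _ (dl i)
  rw [pull_dl, pull_dl, pull_dl]
  have h1 : ((lt k).trans (ms (starts k true))) i =
      if starts k true (FreeGroup.of k * i.2) then some (i.1, FreeGroup.of k * i.2) else none := by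
    change (lt k i).bind (ms (starts k true)) = _
    rw [lt_apply, Option.bind_some, ms_apply]
  have h2 : ((ms (starts k false)).trans (lt k)) i =
      if starts k false i.2 then some (i.1, FreeGroup.of k * i.2) else none := by
    change (ms (starts k false) i).bind (lt k) = _
    rw [ms_apply]
    by_cases h : starts k false i.2
    · rw [if_pos h, if_pos h, Option.bind_some, lt_apply]
    · rw [if_neg h, if_neg h]; rfl
  rw [h1, h2, lt_apply]
  by_cases h : starts k false i.2
  · rw [if_neg (fun h' => (starts_iff k i.2).1 h' h), if_pos h]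
    exact zero_add _
  · rw [if_pos ((starts_iff k i.2).2 h), if_neg h]
    exact add_zero _

theorem star_ms (S : F → Prop) [DecidablePred S] : star (pull (ms S)) = pull (ms S) := by
  rw [star_pull]
  rfl

theorem ms_mul (S T : F → Prop) [DecidablePred S] [DecidablePred T] (h : ∀ w, S w → ¬ T w) :
    pull (ms S) * pull (ms T) = 0 := by
  rw [pull_mul]
  refine op_ext fun i => ?_
  rw [pull_dl]
  change (((ms T i).bind (ms S)).elim 0 dl) = _
  rw [ms_apply]
  by_cases h1 : T i.2
  · rw [if_pos h1, Option.bind_some, ms_apply, if_neg (fun h2 => h _ h2 h1)]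
    rfl
  · rw [if_neg h1]
    rfl

theorem starts_disjoint {k l : ℕ} (hkl : k ≠ l) (s : Bool) (w : F) :
    starts k s w → ¬ starts l s w := by
  intro h1 h2
  unfold starts at h1 h2
  rw [h1] at h2
  simp only [Option.some.injEq, Prod.mk.injEq, and_true] at h2
  exact hkl h2

theorem star_cp_mul (k l : ℕ) (hkl : k ≠ l) : star (cp k) * cp l = 0 := by
  rw [cp, cp, star_mul, star_ms]
  have : star (pull (lt k)) * pull (ms (starts k true)) *
      (pull (ms (starts l true)) * pull (lt l)) =
      star (pull (lt k)) * (pull (ms (starts k true)) * pull (ms (starts l true))) *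
        pull (lt l) := by simp only [mul_assoc]
  rw [this, ms_mul _ _ (starts_disjoint hkl true), mul_zero, zero_mul]

theorem rp_mul_star (k l : ℕ) (hkl : k ≠ l) : rp k * star (rp l) = 0 := by
  rw [rp, rp, star_mul, star_ms]
  have : pull (lt k) * pull (ms (starts k false)) *
      (pull (ms (starts l false)) * star (pull (lt l))) =
      pull (lt k) * (pull (ms (starts k false)) * pull (ms (starts l false))) *
        star (pull (lt l)) := by simp only [mul_assoc]
  rw [this, ms_mul _ _ (starts_disjoint hkl false), mul_zero, zero_mul]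

theorem norm_cp_le (k : ℕ) : ‖cp k‖ ≤ 1 := by
  rw [cp, pull_mul]; exact norm_pull_le _

theorem norm_rp_le (k : ℕ) : ‖rp k‖ ≤ 1 := by
  rw [rp, pull_mul]; exact norm_pull_le _

theorem lt_eb (k N : ℕ) (a b : Fin (N + 1)) :
    pull (lt k) * pull (eb N a b) = pull (eb N a b) * pull (lt k) := by
  refine pull_comm fun i => ?_
  simp only [lt_apply, eb_apply, Option.bind_some]
  split_ifs <;> rfl

theorem ms_eb (S : F → Prop) [DecidablePred S] (N : ℕ) (a b : Fin (N + 1)) :
    pull (ms S) * pull (eb N a b) = pull (eb N a b) * pull (ms S) := by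
  refine pull_comm fun i => ?_
  rw [ms_apply, eb_apply]
  by_cases h1 : i.1 = ⟨N, b⟩
  · by_cases h2 : S i.2
    · rw [if_pos h1, if_pos h2, Option.bind_some, Option.bind_some, ms_apply, eb_apply,
        if_pos h1, if_pos h2]
    · rw [if_pos h1, if_neg h2, Option.bind_some, ms_apply, if_neg h2]
      rfl
  · by_cases h2 : S i.2
    · rw [if_neg h1, if_pos h2, Option.bind_some, eb_apply, if_neg h1]
      rfl
    · rw [if_neg h1, if_neg h2]
      rfl

theorem cp_eb (k N : ℕ) (a b : Fin (N + 1)) :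
    cp k * pull (eb N a b) = pull (eb N a b) * cp k := by
  rw [cp, mul_assoc, lt_eb, ← mul_assoc, ms_eb, mul_assoc]

theorem rp_eb (k N : ℕ) (a b : Fin (N + 1)) :
    rp k * pull (eb N a b) = pull (eb N a b) * rp k := by
  rw [rp, mul_assoc, ms_eb, ← mul_assoc, lt_eb, mul_assoc]

theorem lt_star (k : ℕ) : pull (lt k) * star (pull (lt k)) = 1 := by
  rw [star_pull, pull_mul]
  refine op_ext fun i => ?_
  rw [pull_dl]
  change dl ((i.1, FreeGroup.of k * ((FreeGroup.of k)⁻¹ * i.2)) : Ix) = dl i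
  rw [mul_inv_cancel_left]

theorem star_lt (k : ℕ) : star (pull (lt k)) * pull (lt k) = 1 := by
  rw [star_pull, pull_mul]
  refine op_ext fun i => ?_
  rw [pull_dl]
  change dl ((i.1, (FreeGroup.of k)⁻¹ * (FreeGroup.of k * i.2)) : Ix) = dl i
  rw [inv_mul_cancel_left]

theorem avg_eb (N : ℕ) (a : Fin (N + 1)) :
    avgState (om N) (pull (eb N a a)) = (Fintype.card (Fin (N + 1)) : ℂ)⁻¹ := by
  unfold avgState
  have h : ∀ p : Fin (N + 1), ⟪om N p, pull (eb N a a) (om N p)⟫_ℂ = if p = a then 1 else 0 := by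
    intro p
    rw [om, pull_dl, eb_apply, inner_dl]
    by_cases hp : p = a
    · subst hp
      rw [if_pos rfl, if_pos rfl]
      change dl _ _ = _
      rw [dl_apply, if_pos rfl]
    · rw [if_neg, if_neg hp]
      · rfl
      · intro h
        simp only [Sigma.mk.injEq, heq_eq_eq, true_and] at h
        exact hp h
  simp only [h, Finset.sum_ite_eq', Finset.mem_univ, if_true, mul_one]

/-- Any bounded projection of `(A × A)^h_*` onto its centre has norm at least `√(N+1)/2`. -/
theorem sqrt_le (N : ℕ) (E : normalHDual exA →L[ℂ] normalHDual exA)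
    (hE : ∀ f c, (normalHDualBimodule exA).l c (E f) = (normalHDualBimodule exA).r c (E f))
    (hE' : ∀ f, (∀ c, (normalHDualBimodule exA).l c f = (normalHDualBimodule exA).r c f) →
      E f = f) : Real.sqrt (N + 1 : ℕ) ≤ 2 * ‖E‖ := by
  have h := sqrt_card_le (K := Fin (N + 1)) E hE hE' (om N) (fun p => norm_dl _)
    (fun x y => trace_comm N x.op_mem y.op_mem)
    (e := fun a b => VN.of (pull (eb N a b)) (pull_eb_mem N a b))
    ⟨fun a b c d => VN.ext_op (by
        rw [VN.op_mul, VN.op_of, VN.op_of, pull_eb_mul]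
        split_ifs <;> rfl),
      fun a b => VN.ext_op (by rw [VN.op_star, VN.op_of, VN.op_of, star_pull, eb_symm])⟩
    (by
      simp only [VN.op_of, avg_eb, Finset.sum_const, Finset.card_univ, nsmul_eq_mul]
      exact mul_inv_cancel₀ (by simp; exact_mod_cast N.succ_ne_zero))
    (fun k => VN.of (pull (lt k)) (pull_lt_mem k))
    (fun k => VN.ext_op (lt_star k)) (fun k => VN.ext_op (star_lt k))
    (fun k a b => VN.ext_op (lt_eb k N a b))
    (fun k => cp k) (fun k => rp k) (fun k => cp_add_rp k)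
    (fun k l hkl => star_cp_mul k l (fun h => hkl (Fin.ext h))) (fun k => norm_cp_le k)
    (fun k a b => cp_eb k N a b)
    (fun k l hkl => rp_mul_star k l (fun h => hkl (Fin.ext h))) (fun k => norm_rp_le k)
    (fun k a b => rp_eb k N a b)
  rwa [Fintype.card_fin] at h

theorem not_isInjective : ¬ LinIsInjective (normalHDualBimodule exA) := by
  intro h
  obtain ⟨E, hE, hE'⟩ := exists_center_projection _ h
  obtain ⟨N, hN⟩ := exists_nat_gt ((2 * ‖E‖) ^ 2)
  have h1 := sqrt_le N E hE hE'
  have h2 : Real.sqrt (N + 1 : ℕ) ^ 2 ≤ (2 * ‖E‖) ^ 2 := by gcongr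
  rw [Real.sq_sqrt (by positivity)] at h2
  push_cast at h2
  linarith

end Example

end Pool.Agent.Helper172.HD
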