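import Mathlib
import Pool.Agent.Helper172.HD.Defs
import Pool.Agent.Helper172.HD.Example

set_option autoImplicit false

open scoped InnerProductSpace TensorProduct ENNReal

namespace Pool.Agent.Helper172.HD

section Bridge

variable {𝔄 : Type} [NormedRing 𝔄] [NormedAlgebra ℂ 𝔄]

/-- The unbundled form of a bimodule. -/
noncomputable def toB {X : Type} [NormedAddCommGroup X] [NormedSpace ℂ X] (M : LinBimodule 𝔄 X) :
    HDS.BanachBimodule 𝔄 X where
  l a x := M.l a x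
  r a x := M.r a x
  l_add a x y := by simp
  l_smul a c x := by simp
  add_l a b x := by simp
  smul_l c a x := by simp
  r_add a x y := by simp
  r_smul a c x := by simp
  add_r a b x := by simp
  smul_r c a x := by simp
  norm_l_le := M.norm_l_le
  norm_r_le := M.norm_r_le
  one_l := M.one_l
  one_r := M.one_r
  mul_l := M.mul_l
  mul_r := M.mul_r
  comm := M.comm

theorem inj_of {X : Type} [NormedAddCommGroup X] [NormedSpace ℂ X] (M : LinBimodule 𝔄 X)
    (h : HDS.IsInjective (toB M)) : LinIsInjective M := by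
  intro Y Z _ _ _ _ _ _ MY MZ σ ρ φ h1 h2 h3
  exact h Y Z (toB MY) (toB MZ) σ ρ φ h1 h2 h3

variable {H : Type} [NormedAddCommGroup H] [InnerProductSpace ℂ H] [CompleteSpace H]

/-- The functionals `x ↦ ∑ ⟨xξᵢ, ηᵢ⟩`. -/
theorem exists_sum_of_mem_span (A : VonNeumannAlgebra H) {φ : VN A →L[ℂ] ℂ}
    (hφ : φ ∈ Submodule.span ℂ (Set.range fun p : H × H => vectorFunctional A p.1 p.2)) :
    ∃ (n : ℕ) (ξ η : Fin n → H), ∀ x : VN A, φ x = ∑ i, ⟪η i, x.op (ξ i)⟫_ℂ := by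
  induction hφ using Submodule.span_induction with
  | mem φ h =>
    obtain ⟨p, rfl⟩ := h
    exact ⟨1, fun _ => p.1, fun _ => p.2, fun x => by simp⟩
  | zero => exact ⟨0, fun _ => 0, fun _ => 0, fun x => by simp⟩
  | add φ ψ _ _ h1 h2 =>
    obtain ⟨n, ξ, η, h1⟩ := h1
    obtain ⟨m, ξ', η', h2⟩ := h2
    refine ⟨n + m, Fin.append ξ ξ', Fin.append η η', fun x => ?_⟩
    simp [Fin.sum_univ_add, h1, h2]
  | smul c φ _ h1 =>
    obtain ⟨n, ξ, η, h1⟩ := h1
    refine ⟨n, fun i => c • ξ i, η, fun x => ?_⟩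
    simp [h1, Finset.mul_sum]

theorem inPredual_of_mem (A : VonNeumannAlgebra H) {φ : VN A →L[ℂ] ℂ} (hφ : φ ∈ predual A)
    (ε : ℝ) (hε : 0 < ε) :
    ∃ (n : ℕ) (ξ η : Fin n → H), ∀ x : VN A,
      ‖φ x - ∑ i, ⟪η i, x.op (ξ i)⟫_ℂ‖ ≤ ε * ‖x‖ := by
  have h1 : φ ∈ closure (Submodule.span ℂ
      (Set.range fun p : H × H => vectorFunctional A p.1 p.2) : Set (VN A →L[ℂ] ℂ)) := hφ
  obtain ⟨ψ, hψ, hd⟩ := Metric.mem_closure_iff.1 h1 ε hε
  obtain ⟨n, ξ, η, h2⟩ := exists_sum_of_mem_span A hψ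
  refine ⟨n, ξ, η, fun x => ?_⟩
  rw [← h2, ← sub_apply]
  refine ((φ - ψ).le_opNorm x).trans ?_
  rw [dist_eq_norm] at hd
  gcongr

theorem mem_of_inPredual (A : VonNeumannAlgebra H) {φ : VN A → ℂ}
    (hφ : ∀ ε > 0, ∃ (n : ℕ) (ξ η : Fin n → H), ∀ x : VN A,
      ‖φ x - ∑ i, ⟪η i, x.op (ξ i)⟫_ℂ‖ ≤ ε * ‖x‖) :
    ∃ ψ ∈ predual A, ∀ x, ψ x = φ x := by
  have key : ∀ ε > 0, ∃ ψ : VN A →L[ℂ] ℂ, ψ ∈ Submodule.span ℂ
      (Set.range fun p : H × H => vectorFunctional A p.1 p.2) ∧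
      ∀ x, ‖φ x - ψ x‖ ≤ ε * ‖x‖ := by
    intro ε hε
    obtain ⟨n, ξ, η, h⟩ := hφ ε hε
    refine ⟨∑ i, vectorFunctional A (ξ i) (η i), ?_, fun x => ?_⟩
    · exact Submodule.sum_mem _ fun i _ => Submodule.subset_span ⟨(ξ i, η i), rfl⟩
    · rw [sum_apply]
      exact h x
  have hadd : ∀ x y, φ (x + y) = φ x + φ y := by
    intro x y
    rw [← sub_eq_zero, ← norm_le_zero_iff]
    refine le_of_forall_pos_le_add fun ε hε => ?_
    set K := ‖x + y‖ + ‖x‖ + ‖y‖ with hK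
    have hK0 : 0 ≤ K := by positivity
    obtain ⟨ψ, -, hψ⟩ := key (ε / (K + 1)) (by positivity)
    have e1 : φ (x + y) - (φ x + φ y) =
        (φ (x + y) - ψ (x + y)) - (φ x - ψ x) - (φ y - ψ y) := by
      rw [map_add]; ring
    rw [e1, zero_add]
    calc _ ≤ ‖φ (x + y) - ψ (x + y)‖ + ‖φ x - ψ x‖ + ‖φ y - ψ y‖ :=
          (norm_sub_le _ _).trans (by gcongr; exact norm_sub_le _ _)
      _ ≤ ε / (K + 1) * ‖x + y‖ + ε / (K + 1) * ‖x‖ + ε / (K + 1) * ‖y‖ := by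
          gcongr <;> apply hψ
      _ = ε / (K + 1) * K := by rw [hK]; ring
      _ ≤ ε := by
          rw [div_mul_eq_mul_div, div_le_iff₀ (by positivity)]
          nlinarith
  have hsmul : ∀ (c : ℂ) x, φ (c • x) = c • φ x := by
    intro c x
    rw [← sub_eq_zero, ← norm_le_zero_iff]
    refine le_of_forall_pos_le_add fun ε hε => ?_
    set K := ‖c • x‖ + ‖c‖ * ‖x‖ with hK
    have hK0 : 0 ≤ K := by positivity
    obtain ⟨ψ, -, hψ⟩ := key (ε / (K + 1)) (by positivity)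
    have e1 : φ (c • x) - c • φ x = (φ (c • x) - ψ (c • x)) - c • (φ x - ψ x) := by
      rw [map_smul, smul_sub]; ring
    rw [e1, zero_add]
    calc _ ≤ ‖φ (c • x) - ψ (c • x)‖ + ‖c‖ * ‖φ x - ψ x‖ :=
          (norm_sub_le _ _).trans (by rw [norm_smul])
      _ ≤ ε / (K + 1) * ‖c • x‖ + ‖c‖ * (ε / (K + 1) * ‖x‖) := by
          gcongr <;> apply hψ
      _ = ε / (K + 1) * K := by rw [hK]; ring
      _ ≤ ε := by
          rw [div_mul_eq_mul_div, div_le_iff₀ (by positivity)]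
          nlinarith
  obtain ⟨ψ₁, -, hψ₁⟩ := key 1 one_pos
  let L : VN A →ₗ[ℂ] ℂ := { toFun := φ, map_add' := hadd, map_smul' := hsmul }
  let Ψ : VN A →L[ℂ] ℂ := L.mkContinuous (‖ψ₁‖ + 1) fun x => by
    have e1 : φ x = (φ x - ψ₁ x) + ψ₁ x := by ring
    change ‖φ x‖ ≤ _
    rw [e1]
    calc _ ≤ ‖φ x - ψ₁ x‖ + ‖ψ₁ x‖ := norm_add_le _ _
      _ ≤ 1 * ‖x‖ + ‖ψ₁‖ * ‖x‖ := add_le_add (hψ₁ x) (ψ₁.le_opNorm x)
      _ = _ := by ring
  refine ⟨Ψ, ?_, fun x => rfl⟩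
  change Ψ ∈ closure (Submodule.span ℂ
      (Set.range fun p : H × H => vectorFunctional A p.1 p.2) : Set (VN A →L[ℂ] ℂ))
  rw [Metric.mem_closure_iff]
  intro ε hε
  obtain ⟨ψ, h1, h2⟩ := key (ε / 2) (by positivity)
  refine ⟨ψ, h1, ?_⟩
  rw [dist_eq_norm]
  refine lt_of_le_of_lt (ContinuousLinearMap.opNorm_le_bound _ (by positivity) fun x => ?_)
    (half_lt_self hε)
  exact h2 x

theorem weakStar_eq (A : VonNeumannAlgebra H) : HDS.weakStar A = weakStarTopology A := by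
  refine le_antisymm ?_ ?_
  · refine le_iInf fun φ => ?_
    exact iInf_le (fun φ : {φ : HDS.VN A → ℂ // HDS.InPredual A φ} =>
      TopologicalSpace.induced φ.1 inferInstance) ⟨fun x => (φ : VN A →L[ℂ] ℂ) x,
        fun ε hε => inPredual_of_mem A φ.2 ε hε⟩
  · refine le_iInf fun φ => ?_
    obtain ⟨ψ, hψ, h⟩ := mem_of_inPredual A (φ := φ.1) φ.2
    have := iInf_le (fun φ : predual A =>
      TopologicalSpace.induced (fun x => (φ : VN A →L[ℂ] ℂ) x) inferInstance) ⟨ψ, hψ⟩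
    have e : (fun x => ψ x) = φ.1 := funext h
    change _ ≤ TopologicalSpace.induced (fun x => ψ x) inferInstance at this
    rw [e] at this
    exact this

/-- The functional underlying an element of `(A × A)^h_*`. -/
noncomputable def toFun' (A : VonNeumannAlgebra H) (f : normalHDual A) : VN A ⊗[ℂ] VN A → ℂ :=
  fun u => (f : HDual (VN A)) (u : HTensor (VN A))

theorem isHaagerupDual (A : VonNeumannAlgebra H) :
    HDS.IsHaagerupDual (weakStarTopology A) (toB (normalHDualBimodule A)) (toFun' A) where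
  map_add i j u := rfl
  map_smul c j u := rfl
  injective f g h := Subtype.ext (DFunLike.ext _ _ fun u => congrFun h u)
  mem_range f := by
    constructor
    · rintro ⟨g, rfl⟩
      exact ⟨⟨fun u v => map_add (g : HDual (VN A)) (u : HTensor (VN A)) v,
        fun c u => map_smul (g : HDual (VN A)) c (u : HTensor (VN A))⟩,
        ⟨‖(g : HDual (VN A))‖, fun u => HDual.le_opNorm (g : HDual (VN A)) u⟩, g.2.1, g.2.2⟩
    · rintro ⟨hl, ⟨C, hC⟩, h1, h2⟩
      exact ⟨⟨HDual.mk (hl.mk' f : HTensor (VN A) →ₗ[ℂ] ℂ) C hC, h1, h2⟩, rfl⟩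
  norm_eq j := rfl
  l_apply a j x y := rfl
  r_apply b j x y := rfl

theorem not_haagerupDualInjective : ¬ HDS.HaagerupDualInjective exA := by
  intro h
  apply not_isInjective
  apply inj_of
  have h1 := isHaagerupDual exA
  rw [← weakStar_eq] at h1
  exact h (normalHDual exA) (toB (normalHDualBimodule exA)) (toFun' exA) h1

end Bridge

end Pool.Agent.Helper172.HD
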